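import Mathlib

/-!
Continuants and the inverse branches of the Gauss map.
-/

open Set Filter Topology

namespace Pool.Agent.H428R3.CF

/-- the Gauss map -/
noncomputable def G (y : ℝ) : ℝ := Int.fract (1 / y)

/-- one step of the continuants `(p, p', s, s')` -/
def step (σ : ℕ × ℕ × ℕ × ℕ) (a : ℕ) : ℕ × ℕ × ℕ × ℕ :=
  (a * σ.1 + σ.2.1, σ.1, a * σ.2.2.1 + σ.2.2.2, σ.2.2.1)

/-- continuants of a digit sequence -/
def st (d : ℕ → ℕ) : ℕ → ℕ × ℕ × ℕ × ℕ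
  | 0 => (0, 1, 1, 0)
  | n + 1 => step (st d n) (d n)

/-- the Möbius map of a continuant state -/
noncomputable def mob (σ : ℕ × ℕ × ℕ × ℕ) (u : ℝ) : ℝ :=
  ((σ.1 : ℝ) + σ.2.1 * u) / ((σ.2.2.1 : ℝ) + σ.2.2.2 * u)

/-- good states -/
structure Good (σ : ℕ × ℕ × ℕ × ℕ) (ε : ℝ) : Prop where
  s1 : 1 ≤ σ.2.2.1
  s2 : σ.2.2.2 ≤ σ.2.2.1
  p1 : σ.1 ≤ σ.2.2.1
  p2 : σ.1 + σ.2.1 ≤ σ.2.2.1 + σ.2.2.2
  det : (σ.2.1 : ℝ) * σ.2.2.1 - σ.1 * σ.2.2.2 = ε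

lemma good_step {σ : ℕ × ℕ × ℕ × ℕ} {ε : ℝ} (h : Good σ ε) {a : ℕ} (ha : 1 ≤ a) : Good (step σ a) (-ε) := by
  obtain ⟨h1, h2, h3, h4, h5⟩ := h
  refine ⟨?_, ?_, ?_, ?_, ?_⟩
  · simp only [step]; nlinarith
  · simp only [step]; nlinarith
  · simp only [step]
    obtain ⟨a', rfl⟩ : ∃ a', a = a' + 1 := ⟨a - 1, by omega⟩
    nlinarith
  · simp only [step]
    nlinarith
  · simp only [step]
    push_cast
    linarith

lemma good_st (d : ℕ → ℕ) (hd : ∀ n, 1 ≤ d n) (n : ℕ) : Good (st d n) ((-1) ^ n) := by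
  induction n with
  | zero => exact ⟨by simp [st], by simp [st], by simp [st], by simp [st], by simp [st]⟩
  | succ n ih =>
    have h := good_step ih (hd n)
    rw [pow_succ, mul_neg_one]
    exact h

lemma good_st' (d : ℕ → ℕ) (n : ℕ) (hd : ∀ i < n, 1 ≤ d i) : Good (st d n) ((-1) ^ n) := by
  induction n with
  | zero => exact ⟨by simp [st], by simp [st], by simp [st], by simp [st], by simp [st]⟩
  | succ n ih =>
    have h := good_step (ih (fun i hi => hd i (by omega))) (hd n (by omega))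
    rw [pow_succ, mul_neg_one]
    exact h

lemma st_congr {d d' : ℕ → ℕ} (n : ℕ) (h : ∀ i < n, d i = d' i) : st d n = st d' n := by
  induction n with
  | zero => rfl
  | succ n ih =>
    simp only [st]
    rw [ih (fun i hi => h i (by omega)), h n (by omega)]

lemma den_pos {σ : ℕ × ℕ × ℕ × ℕ} {ε : ℝ} (h : Good σ ε) {u : ℝ} (hu : 0 ≤ u) :
    0 < (σ.2.2.1 : ℝ) + σ.2.2.2 * u := by
  have h1 : (1 : ℝ) ≤ σ.2.2.1 := by exact_mod_cast h.s1
  have h2 : (0 : ℝ) ≤ σ.2.2.2 * u := by positivity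
  linarith

lemma mob_sub {σ : ℕ × ℕ × ℕ × ℕ} {ε : ℝ} (h : Good σ ε) {u v : ℝ} (hu : 0 ≤ u) (hv : 0 ≤ v) :
    mob σ u - mob σ v = ε * (u - v) / (((σ.2.2.1 : ℝ) + σ.2.2.2 * u) * ((σ.2.2.1 : ℝ) + σ.2.2.2 * v)) := by
  have h1 := den_pos h hu
  have h2 := den_pos h hv
  have h3 := h.det
  unfold mob
  rw [div_sub_div _ _ h1.ne' h2.ne', ← h3]
  congr 1
  ring

lemma mob_step {σ : ℕ × ℕ × ℕ × ℕ} {ε : ℝ} (h : Good σ ε) (a : ℕ) {u : ℝ} (hu : 0 ≤ u) (hau : 0 < (a : ℝ) + u) :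
    mob (step σ a) u = mob σ (1 / (a + u)) := by
  have h1 := den_pos h (show 0 ≤ 1 / ((a : ℝ) + u) by positivity)
  have h2 : 0 < ((a * σ.2.2.1 + σ.2.2.2 : ℕ) : ℝ) + σ.2.2.1 * u := by
    have h3 : (1 : ℝ) ≤ σ.2.2.1 := by exact_mod_cast h.s1
    push_cast
    have h4 : 0 < ((a : ℝ) + u) * σ.2.2.1 := by positivity
    have h5 : (0 : ℝ) ≤ σ.2.2.2 := Nat.cast_nonneg _
    nlinarith
  unfold mob step
  simp only
  rw [div_eq_div_iff h2.ne' h1.ne']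
  push_cast
  field_simp
  ring

lemma mob_mem {σ : ℕ × ℕ × ℕ × ℕ} {ε : ℝ} (h : Good σ ε) {u : ℝ} (hu : 0 ≤ u) (hu1 : u ≤ 1) :
    0 ≤ mob σ u ∧ mob σ u ≤ 1 := by
  have h1 := den_pos h hu
  have h2 : (σ.1 : ℝ) ≤ σ.2.2.1 := by exact_mod_cast h.p1
  have h3 : (σ.1 : ℝ) + σ.2.1 ≤ σ.2.2.1 + σ.2.2.2 := by exact_mod_cast h.p2
  constructor
  · unfold mob; positivity
  · unfold mob
    rw [div_le_one h1]
    nlinarith

/-- basic two sided Lipschitz bounds -/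
lemma mob_lip {σ : ℕ × ℕ × ℕ × ℕ} {ε : ℝ} (h : Good σ ε) (hε : |ε| = 1) {u v : ℝ} (hu : 0 ≤ u) (hv : 0 ≤ v)
    (hu1 : u ≤ 1) (hv1 : v ≤ 1) :
    |u - v| / (4 * (σ.2.2.1 : ℝ) ^ 2) ≤ |mob σ u - mob σ v| ∧
    |mob σ u - mob σ v| ≤ |u - v| / (σ.2.2.1 : ℝ) ^ 2 := by
  have h1 := den_pos h hu
  have h2 := den_pos h hv
  have hs : (1 : ℝ) ≤ σ.2.2.1 := by exact_mod_cast h.s1
  have hs2 : (σ.2.2.2 : ℝ) ≤ σ.2.2.1 := by exact_mod_cast h.s2
  have hs0 : (0 : ℝ) ≤ σ.2.2.2 := Nat.cast_nonneg _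
  rw [mob_sub h hu hv, abs_div, abs_mul, hε, one_mul, abs_of_pos (mul_pos h1 h2)]
  have ha : (σ.2.2.1 : ℝ) + σ.2.2.2 * u ≤ 2 * σ.2.2.1 := by nlinarith
  have hb : (σ.2.2.1 : ℝ) + σ.2.2.2 * v ≤ 2 * σ.2.2.1 := by nlinarith
  have hc : (σ.2.2.1 : ℝ) ≤ (σ.2.2.1 : ℝ) + σ.2.2.2 * u := by nlinarith
  have hd : (σ.2.2.1 : ℝ) ≤ (σ.2.2.1 : ℝ) + σ.2.2.2 * v := by nlinarith
  constructor
  · apply div_le_div_of_nonneg_left (abs_nonneg _) (mul_pos h1 h2)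
    calc ((σ.2.2.1 : ℝ) + σ.2.2.2 * u) * ((σ.2.2.1 : ℝ) + σ.2.2.2 * v) ≤ (2 * σ.2.2.1) * (2 * σ.2.2.1) :=
          mul_le_mul ha hb h2.le (by positivity)
      _ = 4 * (σ.2.2.1 : ℝ) ^ 2 := by ring
  · apply div_le_div_of_nonneg_left (abs_nonneg _) (by positivity)
    calc (σ.2.2.1 : ℝ) ^ 2 = σ.2.2.1 * σ.2.2.1 := by ring
      _ ≤ _ := mul_le_mul hc hd (by positivity) h1.le

/-- growth of the continuants -/
lemma growth (d : ℕ → ℕ) (n : ℕ) (hd : ∀ i < n, 1 ≤ d i) : 2 ^ n ≤ 2 * (st d n).2.2.1 ^ 2 := by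
  have key : ∀ n, (∀ i < n + 1, 1 ≤ d i) → 2 ^ n ≤ 2 * (st d n).2.2.1 ^ 2 ∧ 2 ^ (n + 1) ≤ 2 * (st d (n + 1)).2.2.1 ^ 2 := by
    intro n
    induction n with
    | zero =>
      intro h
      constructor
      · simp [st]
      · have h0 := h 0 (by omega)
        have h1 : 1 ≤ d 0 ^ 2 := Nat.one_le_pow _ _ (by omega)
        simp only [st, step, mul_one, add_zero, zero_add, pow_one]
        omega
    | succ n ih =>
      intro h
      obtain ⟨ih1, ih2⟩ := ih (fun i hi => h i (by omega))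
      refine ⟨ih2, ?_⟩
      have hg := good_st' d n (fun i hi => h i (by omega))
      have h1 : (st d (n + 1)).2.2.1 = d n * (st d n).2.2.1 + (st d n).2.2.2 := rfl
      have h2 : (st d (n + 1 + 1)).2.2.1 = d (n + 1) * (st d (n + 1)).2.2.1 + (st d n).2.2.1 := rfl
      have h3 := h n (by omega)
      have h4 := h (n + 1) (by omega)
      have h5 : (st d n).2.2.1 ≤ (st d (n + 1)).2.2.1 := by rw [h1]; nlinarith
      have h6 : 2 * (st d n).2.2.1 ≤ (st d (n + 1 + 1)).2.2.1 := by rw [h2]; nlinarith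
      calc 2 ^ (n + 1 + 1) = 4 * 2 ^ n := by ring
        _ ≤ 4 * (2 * (st d n).2.2.1 ^ 2) := by omega
        _ = 2 * (2 * (st d n).2.2.1) ^ 2 := by ring
        _ ≤ 2 * (st d (n + 1 + 1)).2.2.1 ^ 2 := by gcongr
  rcases n with _ | n
  · simp [st]
  · exact (key n hd).2

lemma mob_contr (d : ℕ → ℕ) (n : ℕ) (hd : ∀ i < n, 1 ≤ d i) {u v : ℝ} (hu : 0 ≤ u) (hv : 0 ≤ v)
    (hu1 : u ≤ 1) (hv1 : v ≤ 1) : |mob (st d n) u - mob (st d n) v| ≤ 2 / 2 ^ n := by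
  have hg := good_st' d n hd
  have h1 := (mob_lip hg (by rw [abs_pow, abs_neg, abs_one, one_pow]) hu hv hu1 hv1).2
  have h2 := growth d n hd
  have h3 : (2 : ℝ) ^ n ≤ 2 * ((st d n).2.2.1 : ℝ) ^ 2 := by exact_mod_cast h2
  have h4 : |u - v| ≤ 1 := by rw [abs_le]; constructor <;> linarith
  have hs : (1 : ℝ) ≤ (st d n).2.2.1 := by exact_mod_cast hg.s1
  refine h1.trans ?_
  rw [div_le_div_iff₀ (by positivity) (by positivity)]
  calc |u - v| * 2 ^ n ≤ 1 * (2 * ((st d n).2.2.1 : ℝ) ^ 2) := by gcongr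
    _ = _ := by ring

/-- points with prescribed first digits -/
lemma orbit (d : ℕ → ℕ) (n : ℕ) (hd : ∀ i < n, 1 ≤ d i) (u : ℝ) (hu : 0 < u) (hu1 : u < 1) :
    G^[n] (mob (st d n) u) = u := by
  induction n generalizing u with
  | zero => simp [st, mob]
  | succ n ih =>
    have hg := good_st' d n (fun i hi => hd i (by omega))
    have hdn : (1 : ℝ) ≤ d n := by exact_mod_cast hd n (by omega)
    have h1 : mob (st d (n + 1)) u = mob (st d n) (1 / (d n + u)) := mob_step hg (d n) hu.le (by linarith)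
    have h2 : 0 < 1 / ((d n : ℝ) + u) := by positivity
    have h3 : 1 / ((d n : ℝ) + u) < 1 := by rw [div_lt_one (by linarith)]; linarith
    rw [Function.iterate_succ_apply', h1, ih (fun i hi => hd i (by omega)) _ h2 h3]
    unfold G
    rw [one_div_one_div, Int.fract_natCast_add, Int.fract_eq_self.2 ⟨hu.le, hu1⟩]

/-- expansions from tails -/
lemma tail_mob (d : ℕ → ℕ) (w : ℕ → ℝ) (n : ℕ) (hd : ∀ i < n, 1 ≤ d i) (hw : ∀ i, 0 ≤ w i)
    (hrec : ∀ i < n, w i = 1 / (d i + w (i + 1))) : w 0 = mob (st d n) (w n) := by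
  induction n with
  | zero => simp [st, mob]
  | succ n ih =>
    have hg := good_st' d n (fun i hi => hd i (by omega))
    have hdn : (1 : ℝ) ≤ d n := by exact_mod_cast hd n (by omega)
    have h0 := hw (n + 1)
    have h1 : mob (st d (n + 1)) (w (n + 1)) = mob (st d n) (1 / (d n + w (n + 1))) :=
      mob_step hg (d n) h0 (by linarith)
    rw [ih (fun i hi => hd i (by omega)) (fun i hi => hrec i (by omega)), h1, ← hrec n (by omega)]

/-- digits of an irrational number in `(0,1)` -/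
lemma digits (x : ℝ) (hx : Irrational x) (h0 : 0 < x) (h1 : x < 1) :
    ∀ n, (Irrational (G^[n] x) ∧ 0 < G^[n] x ∧ G^[n] x < 1) := by
  intro n
  induction n with
  | zero => exact ⟨hx, h0, h1⟩
  | succ n ih =>
    obtain ⟨ih1, ih2, ih3⟩ := ih
    rw [Function.iterate_succ_apply']
    have h2 : Irrational (G (G^[n] x)) := by
      unfold G
      rw [Int.fract, one_div]
      exact (irrational_inv_iff.2 ih1).sub_intCast _
    refine ⟨h2, ?_, ?_⟩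
    · have h3 : 0 ≤ G (G^[n] x) := Int.fract_nonneg _
      exact lt_of_le_of_ne h3 (fun h => h2 ⟨0, by rw [← h]; simp⟩)
    · exact Int.fract_lt_one _

lemma digit_rec (y : ℝ) (h0 : 0 < y) (h1 : y < 1) :
    1 ≤ ⌊1 / y⌋₊ ∧ y = 1 / ((⌊1 / y⌋₊ : ℝ) + G y) := by
  have h2 : 1 ≤ 1 / y := by rw [le_div_iff₀ h0]; linarith
  refine ⟨by rw [Nat.one_le_floor_iff]; exact h2, ?_⟩
  have h3 : ((⌊1 / y⌋₊ : ℝ)) = ((⌊1 / y⌋ : ℤ) : ℝ) := by
    rw [← natCast_floor_eq_intCast_floor (by positivity)]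
  rw [h3]
  unfold G
  rw [Int.floor_add_fract, one_div_one_div]

end Pool.Agent.H428R3.CF
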