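import Mathlib
import Pool.Agent.H428R3.CF.Basic
import Pool.Agent.H728R2.FA.S.BIRK

/-!
The Gauss measure: invariance and ergodicity; existence of continued fraction normal numbers.
-/

open Set Filter Topology MeasureTheory

namespace Pool.Agent.H428R3.CF

lemma G_meas : Measurable G := by
  unfold G
  exact measurable_fract.comp (measurable_const.div measurable_id)

noncomputable def dens (x : ℝ) : ENNReal := ENNReal.ofReal (1 / (1 + x) / Real.log 2)

lemma dens_meas : Measurable dens := by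
  unfold dens
  exact ENNReal.measurable_ofReal.comp ((measurable_const.div (measurable_const.add measurable_id)).div_const _)

/-- the Gauss measure -/
noncomputable def gm : Measure ℝ := (volume.restrict (Ioo 0 1)).withDensity dens

lemma log2_pos : 0 < Real.log 2 := Real.log_pos (by norm_num)

lemma gm_ac : gm ≪ volume.restrict (Ioo 0 1) := withDensity_absolutelyContinuous _ _

lemma gm_ae : ∀ᵐ y ∂gm, y ∈ Ioo (0 : ℝ) 1 := gm_ac.ae_le (ae_restrict_mem measurableSet_Ioo)

lemma gm_Icc {α β : ℝ} (h0 : 0 ≤ α) (h1 : α ≤ β) (h2 : β ≤ 1) :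
    gm (Icc α β) = ENNReal.ofReal ((Real.log (1 + β) - Real.log (1 + α)) / Real.log 2) := by
  have hl := log2_pos
  unfold gm
  rw [withDensity_apply _ measurableSet_Icc, Measure.restrict_restrict measurableSet_Icc]
  have hae : (Icc α β ∩ Ioo 0 1 : Set ℝ) =ᵐ[volume] Ioc α β := by
    have h3 : (Icc α β ∩ Ioo 0 1 : Set ℝ) ⊆ Icc α β := inter_subset_left
    have h4 : Ioo α β ⊆ (Icc α β ∩ Ioo 0 1 : Set ℝ) := by
      intro x hx
      exact ⟨⟨hx.1.le, hx.2.le⟩, lt_of_le_of_lt h0 hx.1, lt_of_lt_of_le hx.2 h2⟩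
    have h5 : (Ioo α β : Set ℝ) =ᵐ[volume] Icc α β := Ioo_ae_eq_Icc
    have h6 : (Icc α β ∩ Ioo 0 1 : Set ℝ) =ᵐ[volume] Icc α β :=
      (HasSubset.Subset.eventuallyLE h3).antisymm (h5.symm.le.trans (HasSubset.Subset.eventuallyLE h4))
    exact h6.trans Ioc_ae_eq_Icc.symm
  rw [Measure.restrict_congr_set hae]
  have hcont : ContinuousOn (fun x : ℝ => 1 / (1 + x) / Real.log 2) (Icc α β) := by
    apply ContinuousOn.div_const
    apply ContinuousOn.div continuousOn_const (continuousOn_const.add continuousOn_id)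
    intro x hx
    have h3 : (0 : ℝ) < 1 + x := by linarith [hx.1]
    exact h3.ne'
  have hint : IntervalIntegrable (fun x : ℝ => 1 / (1 + x) / Real.log 2) volume α β :=
    ContinuousOn.intervalIntegrable (by rw [uIcc_of_le h1]; exact hcont)
  have h7 : ∫ x in α..β, 1 / (1 + x) / Real.log 2 = (Real.log (1 + β) - Real.log (1 + α)) / Real.log 2 := by
    rw [intervalIntegral.integral_eq_sub_of_hasDerivAt (f := fun x => Real.log (1 + x) / Real.log 2) _ hint]
    · rw [sub_div]
    · intro x hx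
      rw [uIcc_of_le h1] at hx
      have h3 : (1 : ℝ) + x ≠ 0 := by
        have : (0 : ℝ) < 1 + x := by linarith [hx.1]
        exact this.ne'
      have h4 := ((hasDerivAt_id x).const_add 1).log h3
      exact h4.div_const _
  rw [← h7, intervalIntegral.integral_of_le h1, ofReal_integral_eq_lintegral_ofReal]
  · rfl
  · exact hint.1
  · rw [Filter.EventuallyLE, ae_restrict_iff' measurableSet_Ioc]
    filter_upwards with x hx
    have h3 : (0 : ℝ) < 1 + x := by linarith [hx.1]
    simp only [Pi.zero_apply]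
    positivity

lemma gm_univ : gm univ = 1 := by
  have h1 : gm univ = gm (Icc 0 1) := by
    apply measure_congr
    filter_upwards [gm_ae] with y hy
    apply propext
    exact ⟨fun _ => ⟨hy.1.le, hy.2.le⟩, fun _ => trivial⟩
  rw [h1, gm_Icc le_rfl zero_le_one le_rfl]
  norm_num

instance : IsProbabilityMeasure gm := ⟨gm_univ⟩

lemma gm_Iic {t : ℝ} (h0 : 0 ≤ t) (h1 : t ≤ 1) : gm (Iic t) = ENNReal.ofReal (Real.log (1 + t) / Real.log 2) := by
  have h2 : gm (Iic t) = gm (Icc 0 t) := by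
    apply measure_congr
    filter_upwards [gm_ae] with y hy
    apply propext
    exact ⟨fun h => ⟨hy.1.le, h⟩, fun h => h.2⟩
  rw [h2, gm_Icc le_rfl h0 h1, add_zero, Real.log_one, sub_zero]

lemma series (t : ℝ) (h0 : 0 ≤ t) (h1 : t < 1) :
    ∑' n : ℕ, ENNReal.ofReal ((Real.log (1 + 1 / ((n : ℝ) + 1)) - Real.log (1 + 1 / ((n : ℝ) + 1 + t))) / Real.log 2) =
      ENNReal.ofReal (Real.log (1 + t) / Real.log 2) := by
  have hl := log2_pos
  set f : ℕ → ℝ := fun n => (Real.log (1 + 1 / ((n : ℝ) + 1)) - Real.log (1 + 1 / ((n : ℝ) + 1 + t))) / Real.log 2 with hf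
  have hnn : ∀ n, 0 ≤ f n := by
    intro n
    apply div_nonneg _ hl.le
    rw [sub_nonneg]
    apply Real.log_le_log (by positivity)
    have : 1 / ((n : ℝ) + 1 + t) ≤ 1 / ((n : ℝ) + 1) := one_div_le_one_div_of_le (by positivity) (by linarith)
    linarith
  have hpart : ∀ N : ℕ, ∑ n ∈ Finset.range N, f n =
      (Real.log (1 + t) - Real.log (1 + t / ((N : ℝ) + 1))) / Real.log 2 := by
    intro N
    induction N with
    | zero => simp
    | succ N ih =>
      rw [Finset.sum_range_succ, ih]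
      simp only [hf]
      rw [← add_div]
      congr 1
      have e1 : (1 : ℝ) + 1 / ((N : ℝ) + 1) = ((N : ℝ) + 2) / (N + 1) := by field_simp; ring
      have e2 : (1 : ℝ) + 1 / ((N : ℝ) + 1 + t) = ((N : ℝ) + 2 + t) / (N + 1 + t) := by
        field_simp; ring
      have e3 : (1 : ℝ) + t / ((N : ℝ) + 1) = ((N : ℝ) + 1 + t) / (N + 1) := by field_simp
      have e4 : (1 : ℝ) + t / (((N + 1 : ℕ) : ℝ) + 1) = ((N : ℝ) + 2 + t) / (N + 2) := by
        push_cast; field_simp; ring
      rw [e1, e2, e3, e4, Real.log_div (by positivity) (by positivity), Real.log_div (by positivity) (by positivity),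
        Real.log_div (by positivity) (by positivity), Real.log_div (by positivity) (by positivity)]
      ring
  have hlim : Tendsto (fun N : ℕ => ∑ n ∈ Finset.range N, f n) atTop (𝓝 (Real.log (1 + t) / Real.log 2)) := by
    simp_rw [hpart]
    have h2 : Tendsto (fun N : ℕ => t / ((N : ℝ) + 1)) atTop (𝓝 0) :=
      tendsto_const_nhds.div_atTop (tendsto_atTop_add_const_right _ _ tendsto_natCast_atTop_atTop)
    have h3 : Tendsto (fun N : ℕ => Real.log (1 + t / ((N : ℝ) + 1))) atTop (𝓝 (Real.log (1 + 0))) := by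
      apply Tendsto.log (tendsto_const_nhds.add h2)
      norm_num
    have h4 := (tendsto_const_nhds (x := Real.log (1 + t))).sub h3
    have h5 := h4.div_const (Real.log 2)
    simpa using h5
  have hsum : HasSum f (Real.log (1 + t) / Real.log 2) :=
    (hasSum_iff_tendsto_nat_of_nonneg hnn _).2 hlim
  rw [← ENNReal.ofReal_tsum_of_nonneg hnn hsum.summable, hsum.tsum_eq]

lemma G_inv : MeasurePreserving G gm gm := by
  refine ⟨G_meas, ?_⟩
  haveI : IsProbabilityMeasure (Measure.map G gm) := Measure.isProbabilityMeasure_map G_meas.aemeasurable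
  apply Measure.ext_of_Iic
  intro t
  rw [Measure.map_apply G_meas measurableSet_Iic]
  rcases lt_or_ge t 0 with ht | ht
  · have h1 : G ⁻¹' Iic t = ∅ := by
      ext y
      simp only [mem_preimage, mem_Iic, mem_empty_iff_false, iff_false, not_le]
      exact lt_of_lt_of_le ht (Int.fract_nonneg _)
    have h2 : gm (Iic t) = gm ∅ := by
      apply measure_congr
      filter_upwards [gm_ae] with y hy
      apply propext
      exact ⟨fun h => absurd hy.1 (not_lt.2 (le_trans h ht.le)), fun h => h.elim⟩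
    rw [h1, h2]
  rcases le_or_gt 1 t with ht1 | ht1
  · have h1 : G ⁻¹' Iic t = univ := by
      ext y
      simp only [mem_preimage, mem_Iic, mem_univ, iff_true]
      exact ((Int.fract_lt_one _).le).trans ht1
    have h2 : gm (Iic t) = gm univ := by
      apply measure_congr
      filter_upwards [gm_ae] with y hy
      apply propext
      exact ⟨fun _ => trivial, fun _ => hy.2.le.trans ht1⟩
    rw [h1, h2]
  · rw [gm_Iic ht ht1.le, ← series t ht ht1]
    have h1 : gm (G ⁻¹' Iic t) = gm (⋃ n : ℕ, Icc (1 / ((n : ℝ) + 1 + t)) (1 / ((n : ℝ) + 1))) := by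
      apply measure_congr
      filter_upwards [gm_ae] with y hy
      apply propext
      change G y ≤ t ↔ y ∈ ⋃ n : ℕ, Icc (1 / ((n : ℝ) + 1 + t)) (1 / ((n : ℝ) + 1))
      rw [mem_iUnion]
      constructor
      · intro h
        obtain ⟨h3, h4⟩ := digit_rec y hy.1 hy.2
        refine ⟨⌊1 / y⌋₊ - 1, ?_⟩
        have h5 : (((⌊1 / y⌋₊ - 1 : ℕ) : ℝ)) + 1 = (⌊1 / y⌋₊ : ℝ) := by
          rw [Nat.cast_sub h3]; push_cast; ring
        rw [h5]
        have h6 : (1 : ℝ) ≤ (⌊1 / y⌋₊ : ℝ) := by exact_mod_cast h3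
        have h7 : 0 ≤ G y := Int.fract_nonneg _
        constructor
        · calc 1 / ((⌊1 / y⌋₊ : ℝ) + t) ≤ 1 / ((⌊1 / y⌋₊ : ℝ) + G y) :=
                one_div_le_one_div_of_le (by linarith) (by linarith)
            _ = y := h4.symm
        · calc y = 1 / ((⌊1 / y⌋₊ : ℝ) + G y) := h4
            _ ≤ 1 / (⌊1 / y⌋₊ : ℝ) := one_div_le_one_div_of_le (by linarith) (by linarith)
      · rintro ⟨n, hn1, hn2⟩
        have hy0 := hy.1
        have h3 : (n : ℝ) + 1 ≤ 1 / y := by
          rw [le_div_iff₀ hy0]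
          rw [le_div_iff₀ (by positivity)] at hn2
          linarith
        have h4 : 1 / y ≤ (n : ℝ) + 1 + t := by
          rw [div_le_iff₀ hy0]
          rw [div_le_iff₀ (by positivity)] at hn1
          linarith
        have h5 : ⌊1 / y⌋ = (n : ℤ) + 1 := by
          rw [Int.floor_eq_iff]
          push_cast
          constructor <;> linarith
        unfold G
        rw [Int.fract, h5]
        push_cast
        linarith
    rw [h1, measure_iUnion]
    · congr 1
      ext n
      rw [gm_Icc (by positivity) (one_div_le_one_div_of_le (by positivity) (by linarith))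
        (by rw [div_le_one (by positivity)]; linarith [(Nat.cast_nonneg n : (0 : ℝ) ≤ n)])]
    · have key : ∀ n m : ℕ, n < m → Disjoint (Icc (1 / ((n : ℝ) + 1 + t)) (1 / ((n : ℝ) + 1)))
          (Icc (1 / ((m : ℝ) + 1 + t)) (1 / ((m : ℝ) + 1))) := by
        intro n m hnm
        rw [Set.disjoint_left]
        intro y hy1 hy2
        have h2 : (n : ℝ) + 1 ≤ m := by exact_mod_cast hnm
        have h3 : 1 / ((m : ℝ) + 1) < 1 / ((n : ℝ) + 1 + t) :=
          one_div_lt_one_div_of_lt (by positivity) (by linarith)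
        linarith [hy1.1, hy2.2]
      intro n m hnm
      rcases Nat.lt_or_gt_of_ne hnm with h | h
      · exact key n m h
      · exact (key m n h).symm
    · intro n
      exact measurableSet_Icc

lemma mob_between {σ : ℕ × ℕ × ℕ × ℕ} {ε : ℝ} (h : Good σ ε) (hε : ε = 1 ∨ ε = -1) {u : ℝ} (hu : 0 ≤ u) (hu1 : u ≤ 1) :
    |mob σ u - (mob σ 0 + mob σ 1) / 2| ≤ |mob σ 0 - mob σ 1| / 2 := by
  have h1 := mob_sub h hu (le_refl (0 : ℝ))
  have h2 := mob_sub h hu zero_le_one
  have d1 := den_pos h hu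
  have d2 := den_pos h (le_refl (0 : ℝ))
  have d3 := den_pos h (zero_le_one (α := ℝ))
  rcases hε with rfl | rfl
  · have h3 : 0 ≤ mob σ u - mob σ 0 := by
      rw [h1]; apply div_nonneg (by linarith) (mul_pos d1 d2).le
    have h4 : mob σ u - mob σ 1 ≤ 0 := by
      rw [h2]; apply div_nonpos_of_nonpos_of_nonneg (by linarith) (mul_pos d1 d3).le
    rw [abs_sub_comm (mob σ 0), abs_of_nonneg (show 0 ≤ mob σ 1 - mob σ 0 by linarith), abs_le]
    constructor <;> linarith
  · have h3 : mob σ u - mob σ 0 ≤ 0 := by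
      rw [h1]; apply div_nonpos_of_nonpos_of_nonneg (by linarith) (mul_pos d1 d2).le
    have h4 : 0 ≤ mob σ u - mob σ 1 := by
      rw [h2]; apply div_nonneg (by linarith) (mul_pos d1 d3).le
    rw [abs_of_nonneg (show 0 ≤ mob σ 0 - mob σ 1 by linarith), abs_le]
    constructor <;> linarith

lemma vol_image {σ : ℕ × ℕ × ℕ × ℕ} {ε : ℝ} (h : Good σ ε) (hε : ε = 1 ∨ ε = -1) (B : Set ℝ) (hB : MeasurableSet B)
    (hB1 : B ⊆ Ioo 0 1) : ENNReal.ofReal (1 / (4 * (σ.2.2.1 : ℝ) ^ 2)) * volume B ≤ volume (mob σ '' B) := by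
  have hs : (1 : ℝ) ≤ σ.2.2.1 := by exact_mod_cast h.s1
  have hs2 : (σ.2.2.2 : ℝ) ≤ σ.2.2.1 := by exact_mod_cast h.s2
  have hs0 : (0 : ℝ) ≤ σ.2.2.2 := Nat.cast_nonneg _
  have hder : ∀ x ∈ B, HasDerivWithinAt (mob σ) (ε / ((σ.2.2.1 : ℝ) + σ.2.2.2 * x) ^ 2) B x := by
    intro x hx
    have hx0 := (hB1 hx).1
    have d1 := den_pos h hx0.le
    have e1 : HasDerivAt (fun u : ℝ => (σ.1 : ℝ) + σ.2.1 * u) (σ.2.1 * 1) x := ((hasDerivAt_id x).const_mul _).const_add _
    have e2 : HasDerivAt (fun u : ℝ => (σ.2.2.1 : ℝ) + σ.2.2.2 * u) (σ.2.2.2 * 1) x := ((hasDerivAt_id x).const_mul _).const_add _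
    have e3 := (e1.div e2 d1.ne').hasDerivWithinAt (s := B)
    have e4 : (σ.2.1 * 1 * ((σ.2.2.1 : ℝ) + σ.2.2.2 * x) - ((σ.1 : ℝ) + σ.2.1 * x) * (σ.2.2.2 * 1)) = ε := by
      rw [← h.det]; ring
    rw [e4] at e3
    exact e3
  have hinj : InjOn (mob σ) B := by
    intro x hx y hy hxy
    have h1 := mob_sub h (hB1 hx).1.le (hB1 hy).1.le
    rw [hxy, sub_self] at h1
    have d1 := den_pos h (hB1 hx).1.le
    have d2 := den_pos h (hB1 hy).1.le
    have h2 := (div_eq_zero_iff.1 h1.symm).resolve_right (mul_pos d1 d2).ne'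
    have h3 : ε ≠ 0 := by rcases hε with rfl | rfl <;> norm_num
    have h4 := (mul_eq_zero.1 h2).resolve_left h3
    linarith
  have h1 := lintegral_image_eq_lintegral_abs_deriv_mul hB hder hinj (fun _ => 1)
  simp only [mul_one, lintegral_const, Measure.restrict_apply MeasurableSet.univ, univ_inter, one_mul] at h1
  rw [h1, ← setLIntegral_const]
  apply setLIntegral_mono' hB
  intro x hx
  apply ENNReal.ofReal_le_ofReal
  have hx0 := (hB1 hx).1
  have hx1 := (hB1 hx).2
  have d1 := den_pos h hx0.le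
  have hε1 : |ε| = 1 := by rcases hε with rfl | rfl <;> norm_num
  rw [abs_div, hε1, abs_of_pos (by positivity)]
  apply one_div_le_one_div_of_le (by positivity)
  have h2 : (σ.2.2.1 : ℝ) + σ.2.2.2 * x ≤ 2 * σ.2.2.1 := by nlinarith
  calc ((σ.2.2.1 : ℝ) + σ.2.2.2 * x) ^ 2 ≤ (2 * σ.2.2.1) ^ 2 := by gcongr
    _ = _ := by ring

theorem G_erg : Ergodic G gm := by
  refine { toMeasurePreserving := G_inv, aeconst_set := ?_ }
  intro s hs hGs
  rw [eventuallyConst_set]
  by_contra hcon
  rw [not_or] at hcon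
  obtain ⟨hc1, hc2⟩ := hcon
  -- both parts have positive measure
  set B := s ∩ Ioo (0 : ℝ) 1 with hB
  set S := Ioo (0 : ℝ) 1 \ s with hS
  have hBm : MeasurableSet B := hs.inter measurableSet_Ioo
  have hSm : MeasurableSet S := measurableSet_Ioo.diff hs
  have hB0 : volume B ≠ 0 := by
    intro h0
    apply hc2
    have h9 : ∀ᵐ x ∂(volume.restrict (Ioo (0 : ℝ) 1)), x ∉ s := by
      rw [ae_restrict_iff' measurableSet_Ioo, ae_iff]
      refine measure_mono_null ?_ h0
      intro x hx
      simp only [mem_setOf_eq, Classical.not_imp, not_not] at hx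
      exact ⟨hx.2, hx.1⟩
    have h10 : ∀ᵐ x ∂gm, x ∉ s := gm_ac.ae_le h9
    exact h10
  have hS0 : volume S ≠ 0 := by
    intro h0
    apply hc1
    have h9 : ∀ᵐ x ∂(volume.restrict (Ioo (0 : ℝ) 1)), x ∈ s := by
      rw [ae_restrict_iff' measurableSet_Ioo, ae_iff]
      refine measure_mono_null ?_ h0
      intro x hx
      simp only [mem_setOf_eq, Classical.not_imp] at hx
      exact ⟨hx.1, hx.2⟩
    exact gm_ac.ae_le h9
  haveI : (ae (volume.restrict S)).NeBot := by
    rw [ae_neBot]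
    intro h
    exact hS0 (Measure.restrict_eq_zero.1 h)
  have hdens := IsUnifLocDoublingMeasure.ae_tendsto_measure_inter_div (volume : Measure ℝ) S 1
  have hmem : ∀ᵐ x ∂(volume.restrict S), x ∈ S := ae_restrict_mem hSm
  have hirr : ∀ᵐ x ∂(volume.restrict S), Irrational x := by
    apply ae_restrict_of_ae
    have h1 : volume (range ((↑) : ℚ → ℝ)) = 0 := (countable_range _).measure_zero _
    rw [ae_iff]
    refine measure_mono_null ?_ h1
    intro x hx
    simp only [mem_setOf_eq, Irrational, not_not] at hx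
    exact hx
  obtain ⟨x, hx1, hx2, hx3⟩ := (hdens.and (hmem.and hirr)).exists
  have hx0 : 0 < x := hx2.1.1
  have hxl : x < 1 := hx2.1.2
  -- digits
  obtain ⟨w, hw⟩ : ∃ w : ℕ → ℝ, ∀ n, w n = G^[n] x := ⟨_, fun n => rfl⟩
  have hdig := digits x hx3 hx0 hxl
  have hwpos : ∀ n, 0 < w n := fun n => by rw [hw]; exact (hdig n).2.1
  have hwlt : ∀ n, w n < 1 := fun n => by rw [hw]; exact (hdig n).2.2
  obtain ⟨e, he⟩ : ∃ e : ℕ → ℕ, ∀ n, e n = ⌊1 / w n⌋₊ := ⟨_, fun n => rfl⟩
  have hw1 : ∀ n, 1 ≤ e n ∧ w n = 1 / (e n + w (n + 1)) := by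
    intro n
    have h1 := digit_rec (w n) (hwpos n) (hwlt n)
    have h2 : w (n + 1) = G (w n) := by rw [hw, hw, Function.iterate_succ_apply']
    rw [he, h2]
    exact h1
  have hxmob : ∀ n, x = mob (st e n) (w n) := by
    intro n
    have h1 := tail_mob e w n (fun i _ => (hw1 i).1) (fun i => (hwpos i).le) (fun i _ => (hw1 i).2)
    rw [← h1, hw]; rfl
  have hgood : ∀ n, Good (st e n) ((-1) ^ n) := good_st e (fun n => (hw1 n).1)
  have hsign : ∀ n : ℕ, ((-1 : ℝ) ^ n = 1 ∨ (-1 : ℝ) ^ n = -1) := fun n => neg_one_pow_eq_or ℝ n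
  set c : ℕ → ℝ := fun n => (mob (st e n) 0 + mob (st e n) 1) / 2 with hc
  set δ : ℕ → ℝ := fun n => |mob (st e n) 0 - mob (st e n) 1| / 2 with hδ
  have hδpos : ∀ n, 0 < δ n := by
    intro n
    have h1 := (mob_lip (hgood n) (by rcases hsign n with h | h <;> rw [h] <;> norm_num) (le_refl (0 : ℝ)) zero_le_one
      zero_le_one (le_refl (1 : ℝ))).1
    have hs1 : (1 : ℝ) ≤ (st e n).2.2.1 := by exact_mod_cast (hgood n).s1
    have h2 : 0 < |(0 : ℝ) - 1| / (4 * ((st e n).2.2.1 : ℝ) ^ 2) := by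
      apply div_pos (by norm_num) (by positivity)
    simp only [hδ]
    linarith
  have hδle : ∀ n, δ n ≤ 1 / 2 ^ n := by
    intro n
    have h1 := mob_contr e n (fun i _ => (hw1 i).1) (le_refl (0 : ℝ)) zero_le_one zero_le_one (le_refl (1 : ℝ))
    simp only [hδ]
    have h2 : (2 : ℝ) / 2 ^ n = 2 * (1 / 2 ^ n) := by ring
    linarith
  have hδlim : Tendsto δ atTop (𝓝[>] 0) := by
    rw [tendsto_nhdsWithin_iff]
    refine ⟨?_, Filter.Eventually.of_forall fun n => hδpos n⟩
    apply squeeze_zero (fun n => (hδpos n).le) hδle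
    have h1 := tendsto_pow_atTop_nhds_zero_of_lt_one (r := (1 / 2 : ℝ)) (by norm_num) (by norm_num)
    refine h1.congr (fun n => by rw [one_div_pow])
  have hlim := hx1 c δ hδlim (Filter.Eventually.of_forall fun n => by
    rw [Metric.mem_closedBall, Real.dist_eq, one_mul]
    conv_lhs => rw [hxmob n]
    exact mob_between (hgood n) (hsign n) (hwpos n).le (hwlt n).le)
  -- bound
  have hbound : ∀ n, volume (S ∩ Metric.closedBall (c n) (δ n)) / volume (Metric.closedBall (c n) (δ n)) ≤
      1 - volume B / 4 := by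
    intro n
    set Q := Metric.closedBall (c n) (δ n) with hQ
    have hQvol : volume Q = ENNReal.ofReal (2 * δ n) := Real.volume_closedBall _ _
    have hQ0 : volume Q ≠ 0 := by
      rw [hQvol]
      simp only [ne_eq, ENNReal.ofReal_eq_zero, not_le]
      linarith [hδpos n]
    have hQt : volume Q ≠ ⊤ := by rw [hQvol]; exact ENNReal.ofReal_ne_top
    have hsub : mob (st e n) '' B ⊆ s ∩ Q := by
      rintro _ ⟨u, hu, rfl⟩
      have hu1 := hu.2.1
      have hu2 := hu.2.2
      constructor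
      · have h1 := orbit e n (fun i _ => (hw1 i).1) u hu1 hu2
        have h2 : ∀ k, (G^[k]) ⁻¹' s = s := by
          intro k
          induction k with
          | zero => rfl
          | succ k ih => rw [Function.iterate_succ, preimage_comp, ih, hGs]
        rw [← h2 n, mem_preimage, h1]
        exact hu.1
      · rw [hQ, Metric.mem_closedBall, Real.dist_eq]
        exact mob_between (hgood n) (hsign n) hu1.le hu2.le
    have hs1 : (1 : ℝ) ≤ (st e n).2.2.1 := by exact_mod_cast (hgood n).s1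
    have hlow : volume B / 4 * volume Q ≤ volume (s ∩ Q) := by
      refine le_trans ?_ ((vol_image (hgood n) (hsign n) B hBm inter_subset_right).trans (measure_mono hsub))
      have h1 : volume Q ≤ ENNReal.ofReal (1 / ((st e n).2.2.1 : ℝ) ^ 2) := by
        rw [hQvol]
        apply ENNReal.ofReal_le_ofReal
        have h2 := (mob_lip (hgood n) (by rcases hsign n with h | h <;> rw [h] <;> norm_num) (le_refl (0 : ℝ)) zero_le_one
          zero_le_one (le_refl (1 : ℝ))).2
        simp only [hδ]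
        have h3 : |(0 : ℝ) - 1| = 1 := by norm_num
        rw [h3] at h2
        linarith
      have h4 : ENNReal.ofReal (1 / (4 * ((st e n).2.2.1 : ℝ) ^ 2)) = ENNReal.ofReal (1 / ((st e n).2.2.1 : ℝ) ^ 2) / 4 := by
        rw [show (1 : ℝ) / (4 * ((st e n).2.2.1 : ℝ) ^ 2) = 1 / ((st e n).2.2.1 : ℝ) ^ 2 / 4 by field_simp,
          ENNReal.ofReal_div_of_pos (by norm_num)]
        norm_num
      rw [h4]
      calc volume B / 4 * volume Q ≤ volume B / 4 * ENNReal.ofReal (1 / ((st e n).2.2.1 : ℝ) ^ 2) := by gcongr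
        _ = ENNReal.ofReal (1 / ((st e n).2.2.1 : ℝ) ^ 2) / 4 * volume B := by
            simp only [div_eq_mul_inv]; ring
    have hsum : volume (S ∩ Q) + volume (s ∩ Q) ≤ volume Q := by
      rw [← measure_union]
      · apply measure_mono
        exact union_subset inter_subset_right inter_subset_right
      · rw [Set.disjoint_left]
        rintro y ⟨hy1, -⟩ ⟨hy2, -⟩
        exact hy1.2 hy2
      · exact hs.inter Metric.isClosed_closedBall.measurableSet
    rw [ENNReal.div_le_iff hQ0 hQt, ENNReal.sub_mul (fun _ _ => hQt), one_mul]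
    have hBt : volume B / 4 * volume Q ≠ ⊤ := by
      apply ENNReal.mul_ne_top _ hQt
      apply ENNReal.div_ne_top _ (by norm_num)
      exact ne_top_of_le_ne_top (by simp : volume (Ioo (0 : ℝ) 1) ≠ ⊤) (measure_mono inter_subset_right)
    apply ENNReal.le_sub_of_add_le_right hBt
    exact (add_le_add le_rfl hlow).trans hsum
  have h1 := le_of_tendsto hlim (Filter.Eventually.of_forall hbound)
  have h2 : (1 : ENNReal) - volume B / 4 < 1 := by
    apply ENNReal.sub_lt_self (by norm_num) (by norm_num)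
    exact (ENNReal.div_pos hB0 (by norm_num)).ne'
  exact absurd h1 (not_le.2 h2)

theorem exists_normal : ∃ x : ℝ, Irrational x ∧ 0 < x ∧ x < 1 ∧ ∀ t : ℚ, (0 : ℝ) ≤ t → (t : ℝ) ≤ 1 →
    Tendsto (fun N : ℕ => (((Finset.range N).filter (fun n => G^[n] x < t)).card : ℝ) / N) atTop
      (𝓝 (Real.log (1 + t) / Real.log 2)) := by
  have h1 : ∀ t : ℚ, ∀ᵐ x ∂gm, Tendsto (fun n : ℕ => (n : ℝ)⁻¹ * ∑ k ∈ Finset.range n,
      (Iio (t : ℝ)).indicator (fun _ => (1 : ℝ)) (G^[k] x)) atTop
      (𝓝 (∫ x, (Iio (t : ℝ)).indicator (fun _ => (1 : ℝ)) x ∂gm)) := by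
    intro t
    apply Pool.Agent.H728R2.FA.birkhoff G_erg _ (measurable_const.indicator measurableSet_Iio)
    refine ⟨1, fun x => ?_⟩
    by_cases hx : x ∈ Iio (t : ℝ)
    · rw [indicator_of_mem hx]; simp
    · rw [indicator_of_notMem hx]; simp
  rw [← ae_all_iff] at h1
  have hirr : ∀ᵐ x ∂gm, Irrational x := by
    apply gm_ac.ae_le
    apply ae_restrict_of_ae
    have h1 : volume (range ((↑) : ℚ → ℝ)) = 0 := (countable_range _).measure_zero _
    rw [ae_iff]
    refine measure_mono_null ?_ h1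
    intro x hx
    simp only [mem_setOf_eq, Irrational, not_not] at hx
    exact hx
  obtain ⟨x, hx1, hx2, hx3⟩ := (h1.and (gm_ae.and hirr)).exists
  refine ⟨x, hx3, hx2.1, hx2.2, ?_⟩
  intro t ht0 ht1
  have h2 := hx1 t
  have h3 : ∫ x, (Iio (t : ℝ)).indicator (fun _ => (1 : ℝ)) x ∂gm = Real.log (1 + t) / Real.log 2 := by
    rw [integral_indicator measurableSet_Iio]
    simp only [integral_const, smul_eq_mul, mul_one, Measure.real, Measure.restrict_apply MeasurableSet.univ, univ_inter]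
    have h4 : gm (Iio (t : ℝ)) = gm (Iic (t : ℝ)) := by
      have h5 : (Iio (t : ℝ)) =ᵐ[gm] Iic (t : ℝ) := by
        have h6 : (Iio (t : ℝ)) =ᵐ[volume] Iic (t : ℝ) := Iio_ae_eq_Iic
        have h7 : gm ≪ (volume : Measure ℝ) := gm_ac.trans Measure.restrict_le_self.absolutelyContinuous
        exact h7.ae_eq h6
      exact measure_congr h5
    rw [h4, gm_Iic ht0 ht1, ENNReal.toReal_ofReal]
    apply div_nonneg (Real.log_nonneg (by linarith)) log2_pos.le
  rw [h3] at h2
  refine h2.congr (fun N => ?_)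
  rw [div_eq_inv_mul]
  congr 1
  rw [Finset.card_filter]
  push_cast
  apply Finset.sum_congr rfl
  intro k _
  by_cases hk : G^[k] x < t
  · rw [indicator_of_mem (show G^[k] x ∈ Iio (t : ℝ) from hk), if_pos hk]
  · rw [indicator_of_notMem (show G^[k] x ∉ Iio (t : ℝ) from hk), if_neg hk]

end Pool.Agent.H428R3.CF
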