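import Mathlib
import Pool.Agent.H428R3.CF.Basic

/-!
A huge digit of `x` can steer `kap * (x + 1)` into a long run of ones.
-/

open Set Filter Topology

namespace Pool.Agent.H428R3.CF

noncomputable def kap : ℝ := Real.sqrt 2 / 4

lemma kap_lo : 1 / 3 ≤ kap := by
  unfold kap
  have : (4 / 3 : ℝ) ≤ Real.sqrt 2 := Real.le_sqrt_of_sq_le (by norm_num)
  linarith

lemma kap_hi : kap ≤ 3 / 8 := by
  unfold kap
  have : Real.sqrt 2 ≤ 3 / 2 := by
    rw [Real.sqrt_le_left (by norm_num)]; norm_num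
  linarith

lemma kap_irr : Irrational kap := by
  unfold kap
  have h := irrational_sqrt_two.div_natCast (m := 4) (by norm_num)
  push_cast at h
  exact h

/-- inverse branch with digit one -/
noncomputable def ps (u : ℝ) : ℝ := 1 / (1 + u)

lemma ps_mem {u : ℝ} (h0 : 0 ≤ u) (h1 : u ≤ 1) : 0 ≤ ps u ∧ ps u ≤ 1 := by
  unfold ps
  constructor
  · positivity
  · rw [div_le_one (by linarith)]; linarith

lemma Phi_mem (k : ℕ) {u : ℝ} (h0 : 0 ≤ u) (h1 : u ≤ 1) : 0 ≤ ps^[k] u ∧ ps^[k] u ≤ 1 := by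
  induction k with
  | zero => exact ⟨h0, h1⟩
  | succ k ih =>
    rw [Function.iterate_succ_apply']
    exact ps_mem ih.1 ih.2

lemma Phi_mem' (k : ℕ) {u : ℝ} (h0 : 0 < u) (h1 : u < 1) : 0 < ps^[k] u ∧ ps^[k] u < 1 := by
  induction k with
  | zero => exact ⟨h0, h1⟩
  | succ k ih =>
    rw [Function.iterate_succ_apply']
    unfold ps at ih ⊢
    obtain ⟨ih1, ih2⟩ := ih
    constructor
    · exact div_pos one_pos (by linarith)
    · rw [div_lt_one (by linarith)]; linarith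

lemma Phi_near (k : ℕ) {u : ℝ} (h0 : 0 ≤ u) (h1 : u ≤ 1) : 3 / 5 ≤ ps^[k + 4] u ∧ ps^[k + 4] u ≤ 5 / 8 := by
  have step1 : ∀ v : ℝ, 3 / 5 ≤ v → v ≤ 2 / 3 → 3 / 5 ≤ ps v ∧ ps v ≤ 5 / 8 := by
    intro v hv1 hv2
    unfold ps
    constructor
    · rw [le_div_iff₀ (by linarith)]; linarith
    · rw [div_le_iff₀ (by linarith)]; linarith
  induction k with
  | zero =>
    have e1 : ps^[0 + 4] u = ps (ps (ps (ps u))) := rfl
    rw [e1]
    have a1 := ps_mem h0 h1
    have a2 : 1 / 2 ≤ ps u := by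
      unfold ps; rw [le_div_iff₀ (by linarith)]; linarith
    have a3 : 1 / 2 ≤ ps (ps u) ∧ ps (ps u) ≤ 2 / 3 := by
      constructor
      · rw [ps, le_div_iff₀ (by linarith)]; linarith
      · rw [ps, div_le_iff₀ (by linarith)]; linarith
    have a4 : 3 / 5 ≤ ps (ps (ps u)) ∧ ps (ps (ps u)) ≤ 2 / 3 := by
      constructor
      · rw [ps, le_div_iff₀ (by linarith)]; linarith
      · rw [ps, div_le_iff₀ (by linarith)]; linarith
    exact step1 _ a4.1 a4.2
  | succ k ih =>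
    have e1 : k + 1 + 4 = (k + 4) + 1 := by ring
    rw [e1, Function.iterate_succ_apply']
    exact step1 _ ih.1 (by linarith [ih.2])

lemma Phi_cont (k : ℕ) : ContinuousOn (ps^[k]) (Icc 0 1) := by
  induction k with
  | zero => exact continuousOn_id
  | succ k ih =>
    rw [Function.iterate_succ']
    have h1 : ContinuousOn ps (Icc 0 1) := by
      unfold ps
      apply ContinuousOn.div continuousOn_const (continuousOn_const.add continuousOn_id)
      intro x hx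
      have h2 := hx.1
      have h3 : (0 : ℝ) < 1 + x := by linarith
      exact h3.ne'
    exact h1.comp ih (fun x hx => ⟨(Phi_mem k hx.1 hx.2).1, (Phi_mem k hx.1 hx.2).2⟩)

lemma Phi_lower (k : ℕ) : (1 : ℝ) / 4 ^ k ≤ |ps^[k] 0 - ps^[k] 1| := by
  induction k with
  | zero => simp
  | succ k ih =>
    rw [Function.iterate_succ_apply', Function.iterate_succ_apply']
    obtain ⟨h1, h2⟩ := Phi_mem k (le_refl (0 : ℝ)) zero_le_one
    obtain ⟨h3, h4⟩ := Phi_mem k zero_le_one (le_refl (1 : ℝ))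
    set a := ps^[k] 0
    set b := ps^[k] 1
    have e1 : ps a - ps b = (b - a) / ((1 + a) * (1 + b)) := by
      unfold ps
      rw [div_sub_div _ _ (by linarith) (by linarith)]
      congr 1; ring
    rw [e1, abs_div, abs_sub_comm b a, abs_of_pos (show 0 < (1 + a) * (1 + b) by positivity), pow_succ,
      ← div_div]
    calc (1 : ℝ) / 4 ^ k / 4 ≤ |a - b| / 4 := by gcongr
      _ ≤ |a - b| / ((1 + a) * (1 + b)) := by
          apply div_le_div_of_nonneg_left (abs_nonneg _) (by positivity)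
          nlinarith

lemma Phi_orbit (L : ℕ) {u : ℝ} (h0 : 0 < u) (h1 : u < 1) (i : ℕ) (hi : i ≤ L) : G^[i] (ps^[L] u) = ps^[L - i] u := by
  induction i with
  | zero => simp
  | succ i ih =>
    rw [Function.iterate_succ_apply', ih (by omega)]
    obtain ⟨r, hr⟩ : ∃ r, L - i = r + 1 := ⟨L - i - 1, by omega⟩
    have hr2 : L - (i + 1) = r := by omega
    rw [hr, hr2, Function.iterate_succ_apply']
    obtain ⟨h2, h3⟩ := Phi_mem' r h0 h1
    have h4 : G (ps (ps^[r] u)) = Int.fract (1 / (1 / (1 + ps^[r] u))) := rfl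
    have h5 : (1 : ℝ) + ps^[r] u = ((1 : ℕ) : ℝ) + ps^[r] u := by push_cast; ring
    rw [h4, one_div_one_div, h5, Int.fract_natCast_add, Int.fract_eq_self.2 ⟨h2.le, h3⟩]

set_option maxHeartbeats 1000000 in
theorem select (σ : ℕ × ℕ × ℕ × ℕ) (ε : ℝ) (hσ : Good σ ε) (hε : ε = 1 ∨ ε = -1) (K : ℕ) :
    ∃ A N : ℕ, 1 ≤ A ∧ K ≤ N ∧ 1 ≤ N ∧ ∀ y : ℝ, 0 < y → y < 1 →
      (N : ℝ) / 8 ≤ (((Finset.range N).filter (fun n => 3 / 5 ≤ G^[n] (kap * (mob (step σ A) y + 1)) ∧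
        G^[n] (kap * (mob (step σ A) y + 1)) ≤ 5 / 8)).card : ℝ) := by
  classical
  have hεsq : ε * ε = 1 := by rcases hε with h | h <;> rw [h] <;> norm_num
  have hε0 : ε ≠ 0 := by intro h; rw [h] at hεsq; norm_num at hεsq
  have hκ1 := kap_lo
  have hκ2 := kap_hi
  have hκ0 : 0 < kap := by linarith
  obtain ⟨s, hs⟩ : ∃ s, s = σ.2.2.1 := ⟨_, rfl⟩
  obtain ⟨s', hs'⟩ : ∃ s', s' = σ.2.2.2 := ⟨_, rfl⟩
  have hs1 : (1 : ℝ) ≤ s := by rw [hs]; exact_mod_cast hσ.s1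
  have hss : (s' : ℝ) ≤ s := by rw [hs, hs']; exact_mod_cast hσ.s2
  have hs0' : (0 : ℝ) ≤ s' := Nat.cast_nonneg _
  -- the old point
  obtain ⟨zo, hzo⟩ : ∃ zo, zo = kap * (mob σ 0 + 1) := ⟨_, rfl⟩
  have hm0 := mob_mem hσ (le_refl (0 : ℝ)) zero_le_one
  have hzirr : Irrational zo := by
    have h1 : mob σ 0 + 1 = (((σ.1 : ℚ) / σ.2.2.1 + 1 : ℚ) : ℝ) := by
      unfold mob; push_cast; simp
    rw [hzo, h1]
    apply kap_irr.mul_ratCast
    intro h2
    have h3 : mob σ 0 + 1 = 0 := by rw [h1, h2]; norm_num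
    linarith
  have hz0 : 0 < zo := by rw [hzo]; apply mul_pos hκ0; linarith
  have hz1 : zo < 1 := by rw [hzo]; nlinarith
  obtain ⟨w, hw⟩ : ∃ w : ℕ → ℝ, ∀ n, w n = G^[n] zo := ⟨_, fun n => rfl⟩
  have hdig := digits zo hzirr hz0 hz1
  have hwpos : ∀ n, 0 < w n := fun n => by rw [hw]; exact (hdig n).2.1
  have hwlt : ∀ n, w n < 1 := fun n => by rw [hw]; exact (hdig n).2.2
  obtain ⟨e, he⟩ : ∃ e : ℕ → ℕ, ∀ n, e n = ⌊1 / w n⌋₊ := ⟨_, fun n => rfl⟩
  have hw1 : ∀ n, 1 ≤ e n ∧ w n = 1 / (e n + w (n + 1)) := by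
    intro n
    have h1 := digit_rec (w n) (hwpos n) (hwlt n)
    have h2 : w (n + 1) = G (w n) := by rw [hw, hw, Function.iterate_succ_apply']
    rw [he, h2]
    exact h1
  -- parameters
  obtain ⟨L, hL⟩ : ∃ L, L = s + K + 100 := ⟨_, rfl⟩
  obtain ⟨j, hj1, hj2, hj3⟩ : ∃ j, 4 * L ≤ j ∧ j ≤ 4 * L + 1 ∧ (-1 : ℝ) ^ j = -ε := by
    rcases hε with h | h
    · refine ⟨4 * L + 1, by omega, le_rfl, ?_⟩
      rw [h, pow_succ, pow_mul]; norm_num
    · refine ⟨4 * L, le_rfl, by omega, ?_⟩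
      rw [h, pow_mul]; norm_num
  have hgj := good_st e (fun n => (hw1 n).1) j
  rw [hj3] at hgj
  obtain ⟨S, hS⟩ : ∃ S, S = (st e j).2.2.1 := ⟨_, rfl⟩
  have hS1 : (1 : ℝ) ≤ S := by rw [hS]; exact_mod_cast hgj.s1
  have hSgrow : (16 : ℝ) ^ L ≤ 2 * (S : ℝ) ^ 2 := by
    have h1 := growth e j (fun i _ => (hw1 i).1)
    rw [← hS] at h1
    have h2 : (2 : ℝ) ^ j ≤ 2 * (S : ℝ) ^ 2 := by exact_mod_cast h1
    have h3 : (16 : ℝ) ^ L = 2 ^ (4 * L) := by rw [pow_mul]; norm_num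
    rw [h3]
    exact (pow_le_pow_right₀ (by norm_num) hj1).trans h2
  have hzomob : zo = mob (st e j) (w j) := by
    have h1 := tail_mob e w j (fun i _ => (hw1 i).1) (fun i => (hwpos i).le) (fun i _ => (hw1 i).2)
    rw [← h1, hw]; rfl
  obtain ⟨a, ha⟩ : ∃ a : ℝ, a = e j := ⟨_, rfl⟩
  have ha1 : 1 ≤ a := by rw [ha]; exact_mod_cast (hw1 j).1
  have hζ : w j = 1 / (a + w (j + 1)) := by rw [ha]; exact (hw1 j).2
  have hwj1 := hwpos (j + 1)
  have hwj2 := hwlt (j + 1)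
  obtain ⟨V, hV⟩ : ∃ V : ℝ → ℝ, ∀ y, V y = 1 / ((a + 1) + ps^[L] y) := ⟨_, fun y => rfl⟩
  have hVb : ∀ y, 0 ≤ y → y ≤ 1 → 1 / (a + 2) ≤ V y ∧ V y < w j ∧ 0 < V y ∧ V y < 1 := by
    intro y h0 h1
    obtain ⟨h2, h3⟩ := Phi_mem L h0 h1
    rw [hV, hζ]
    refine ⟨?_, ?_, ?_, ?_⟩
    · apply one_div_le_one_div_of_le <;> linarith
    · apply one_div_lt_one_div_of_lt <;> linarith
    · apply one_div_pos.2; linarith
    · rw [div_lt_one (by linarith)]; linarith
  obtain ⟨δ, hδ⟩ : ∃ δ : ℝ → ℝ, ∀ y, δ y = ε * (mob (st e j) (V y) - zo) := ⟨_, fun y => rfl⟩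
  have hδeq : ∀ y, 0 ≤ y → y ≤ 1 → 0 < δ y ∧ δ y ≤ 2 / (a ^ 2 * (S : ℝ) ^ 2) := by
    intro y h0 h1
    obtain ⟨h2, h3, h4, h5⟩ := hVb y h0 h1
    have h6 := mob_sub hgj h4.le (hwpos j).le
    have hd1 := den_pos hgj h4.le
    have hd2 := den_pos hgj (hwpos j).le
    have h7 : δ y = (w j - V y) / (((st e j).2.2.1 + (st e j).2.2.2 * V y) * ((st e j).2.2.1 + (st e j).2.2.2 * w j)) := by
      rw [hδ, hzomob, h6, ← mul_div_assoc]
      congr 1
      have : ε * (-ε * (V y - w j)) = (ε * ε) * (w j - V y) := by ring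
      rw [this, hεsq, one_mul]
    constructor
    · rw [h7]
      exact div_pos (by linarith) (mul_pos hd1 hd2)
    · have h8 : |δ y| = |mob (st e j) (V y) - mob (st e j) (w j)| := by
        rw [hδ, hzomob, abs_mul]
        have : |ε| = 1 := by rcases hε with h | h <;> rw [h] <;> norm_num
        rw [this, one_mul]
      have h9 := (mob_lip hgj (by rw [abs_neg]; rcases hε with h | h <;> rw [h] <;> norm_num)
        h4.le (hwpos j).le h5.le (hwlt j).le).2
      rw [← h8, ← hS] at h9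
      refine (le_abs_self _).trans (h9.trans ?_)
      have h10 : |V y - w j| ≤ 2 / a ^ 2 := by
        rw [abs_of_neg (by linarith)]
        have h11 : w j ≤ 1 / a := by
          rw [hζ]; apply one_div_le_one_div_of_le <;> linarith
        have h12 : 1 / a - 1 / (a + 2) ≤ 2 / a ^ 2 := by
          rw [div_sub_div _ _ (by linarith) (by linarith), div_le_div_iff₀ (by positivity) (by positivity)]
          nlinarith [sq_nonneg a]
        linarith
      calc |V y - w j| / (S : ℝ) ^ 2 ≤ (2 / a ^ 2) / (S : ℝ) ^ 2 := by gcongr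
        _ = _ := by rw [div_div]
  have hdiff : 1 / (4 ^ L * (36 * a ^ 2 * (S : ℝ) ^ 2)) ≤ |δ 0 - δ 1| := by
    have h1 : |δ 0 - δ 1| = |mob (st e j) (V 0) - mob (st e j) (V 1)| := by
      rw [hδ, hδ, ← mul_sub, abs_mul]
      have : |ε| = 1 := by rcases hε with h | h <;> rw [h] <;> norm_num
      rw [this, one_mul]
      congr 1; ring
    obtain ⟨h2, h3, h4, h5⟩ := hVb 0 le_rfl zero_le_one
    obtain ⟨h2', h3', h4', h5'⟩ := hVb 1 zero_le_one le_rfl
    have h6 := (mob_lip hgj (by rw [abs_neg]; rcases hε with h | h <;> rw [h] <;> norm_num)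
        h4.le h4'.le h5.le h5'.le).1
    rw [← h1, ← hS] at h6
    refine le_trans ?_ h6
    obtain ⟨g1, g2⟩ := Phi_mem L (le_refl (0 : ℝ)) zero_le_one
    obtain ⟨g3, g4⟩ := Phi_mem L zero_le_one (le_refl (1 : ℝ))
    have h7 : |V 0 - V 1| = |ps^[L] 0 - ps^[L] 1| / (((a + 1) + ps^[L] 0) * ((a + 1) + ps^[L] 1)) := by
      rw [hV, hV, div_sub_div _ _ (by linarith) (by linarith), abs_div,
        abs_of_pos (show 0 < ((a + 1) + ps^[L] 0) * ((a + 1) + ps^[L] 1) from mul_pos (by linarith) (by linarith))]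
      congr 1
      rw [← abs_neg]; congr 1; ring
    rw [h7]
    have h8 := Phi_lower L
    have h9 : ((a + 1) + ps^[L] 0) * ((a + 1) + ps^[L] 1) ≤ 9 * a ^ 2 := by
      calc ((a + 1) + ps^[L] 0) * ((a + 1) + ps^[L] 1) ≤ (3 * a) * (3 * a) := by
            apply mul_le_mul <;> linarith
        _ = 9 * a ^ 2 := by ring
    calc 1 / (4 ^ L * (36 * a ^ 2 * (S : ℝ) ^ 2)) = (1 / 4 ^ L) / (9 * a ^ 2) / (4 * (S : ℝ) ^ 2) := by
          field_simp; norm_num
      _ ≤ |ps^[L] 0 - ps^[L] 1| / (9 * a ^ 2) / (4 * (S : ℝ) ^ 2) := by gcongr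
      _ ≤ |ps^[L] 0 - ps^[L] 1| / (((a + 1) + ps^[L] 0) * ((a + 1) + ps^[L] 1)) / (4 * (S : ℝ) ^ 2) := by
          apply div_le_div_of_nonneg_right _ (by positivity)
          exact div_le_div_of_nonneg_left (abs_nonneg _) (mul_pos (by linarith) (by linarith)) h9
  obtain ⟨lo, hlo⟩ : ∃ lo, lo = min (δ 0) (δ 1) := ⟨_, rfl⟩
  obtain ⟨hi, hhi⟩ : ∃ hi, hi = max (δ 0) (δ 1) := ⟨_, rfl⟩
  have hlo0 : 0 < lo := by
    rw [hlo]; exact lt_min (hδeq 0 le_rfl zero_le_one).1 (hδeq 1 zero_le_one le_rfl).1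
  have hhi0 : 0 < hi := by
    rw [hhi]; exact lt_of_lt_of_le (hδeq 0 le_rfl zero_le_one).1 (le_max_left _ _)
  have hhile : hi ≤ 2 / (a ^ 2 * (S : ℝ) ^ 2) := by
    rw [hhi]; exact max_le (hδeq 0 le_rfl zero_le_one).2 (hδeq 1 zero_le_one le_rfl).2
  have hlohi : lo ≤ hi := by rw [hlo, hhi]; exact min_le_max
  have hdiff2 : 1 / (4 ^ L * (36 * a ^ 2 * (S : ℝ) ^ 2)) ≤ hi - lo := by
    rw [hhi, hlo, max_sub_min_eq_abs']
    exact hdiff
  -- growth of 4^L
  have h4L : 2592 * (s : ℝ) ^ 2 ≤ 4 ^ L := by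
    have h1 : (s : ℝ) ^ 2 ≤ 4 ^ s := by
      have h2 : s < 2 ^ s := Nat.lt_pow_self (by norm_num)
      have h3 : (s : ℝ) ≤ 2 ^ s := by exact_mod_cast h2.le
      calc (s : ℝ) ^ 2 ≤ (2 ^ s) ^ 2 := by gcongr
        _ = 4 ^ s := by rw [← pow_mul, mul_comm, pow_mul]; norm_num
    have h2 : (2592 : ℝ) ≤ 4 ^ (K + 100) := by
      calc (2592 : ℝ) ≤ 4 ^ 6 := by norm_num
        _ ≤ 4 ^ (K + 100) := pow_le_pow_right₀ (by norm_num) (by omega)
    calc 2592 * (s : ℝ) ^ 2 ≤ 4 ^ (K + 100) * 4 ^ s := by gcongr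
      _ = 4 ^ L := by rw [← pow_add, hL]; congr 1; ring
  have hmain : 3 * (s : ℝ) ^ 2 * (lo * hi) ≤ kap * (hi - lo) := by
    have hq : (0 : ℝ) < a ^ 2 * (S : ℝ) ^ 2 := by positivity
    have h1 : lo * hi ≤ (2 / (a ^ 2 * (S : ℝ) ^ 2)) * (2 / (a ^ 2 * (S : ℝ) ^ 2)) :=
      mul_le_mul (hlohi.trans hhile) hhile hhi0.le (by positivity)
    have h2 : kap * (1 / (4 ^ L * (36 * a ^ 2 * (S : ℝ) ^ 2))) ≤ kap * (hi - lo) := by gcongr
    refine le_trans ?_ h2
    calc 3 * (s : ℝ) ^ 2 * (lo * hi) ≤ 3 * (s : ℝ) ^ 2 * ((2 / (a ^ 2 * (S : ℝ) ^ 2)) * (2 / (a ^ 2 * (S : ℝ) ^ 2))) := by gcongr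
      _ = (12 * (s : ℝ) ^ 2) / ((a ^ 2 * (S : ℝ) ^ 2) * (a ^ 2 * (S : ℝ) ^ 2)) := by field_simp; norm_num
      _ ≤ (1 / 3) * (1 / (4 ^ L * (36 * (a ^ 2 * (S : ℝ) ^ 2)))) := by
          rw [← mul_one_div, show (1 : ℝ) / 3 * (1 / (4 ^ L * (36 * (a ^ 2 * (S : ℝ) ^ 2)))) =
            1 / (3 * (4 ^ L * (36 * (a ^ 2 * (S : ℝ) ^ 2)))) by rw [one_div_mul_one_div], mul_one_div,
            div_le_div_iff₀ (by positivity) (by positivity)]
          have h3 : 1 ≤ a ^ 2 := one_le_pow₀ ha1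
          have h4 : (1296 : ℝ) * (s : ℝ) ^ 2 * 4 ^ L ≤ a ^ 2 * (S : ℝ) ^ 2 := by
            have h5 : (16 : ℝ) ^ L = 4 ^ L * 4 ^ L := by rw [← mul_pow]; norm_num
            have h6 : 2592 * (s : ℝ) ^ 2 * 4 ^ L ≤ 4 ^ L * 4 ^ L := by gcongr
            have h7 : (S : ℝ) ^ 2 ≤ a ^ 2 * (S : ℝ) ^ 2 := by nlinarith [sq_nonneg (S : ℝ)]
            linarith
          calc 12 * (s : ℝ) ^ 2 * (3 * (4 ^ L * (36 * (a ^ 2 * (S : ℝ) ^ 2)))) =
              (1296 * (s : ℝ) ^ 2 * 4 ^ L) * (a ^ 2 * (S : ℝ) ^ 2) := by ring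
            _ ≤ (a ^ 2 * (S : ℝ) ^ 2) * (a ^ 2 * (S : ℝ) ^ 2) := by gcongr
            _ = _ := by ring
      _ ≤ kap * (1 / (4 ^ L * (36 * a ^ 2 * (S : ℝ) ^ 2))) := by
          rw [show (36 * a ^ 2 * (S : ℝ) ^ 2) = (36 * (a ^ 2 * (S : ℝ) ^ 2)) by ring]
          gcongr
  -- the digit
  obtain ⟨X, hX⟩ : ∃ X : ℝ, X = kap / (s * hi) := ⟨_, rfl⟩
  have hX0 : 0 < X := by rw [hX]; positivity
  have hXlo : X + 3 * s ≤ kap / (s * lo) := by
    rw [hX, ← sub_nonneg]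
    have h1 : kap / (s * lo) - (kap / (s * hi) + 3 * s) = (kap * (hi - lo) - 3 * (s : ℝ) ^ 2 * (lo * hi)) / (s * (lo * hi)) := by
      field_simp
      ring
    rw [h1]
    apply div_nonneg (by linarith) (by positivity)
  obtain ⟨A, hA⟩ : ∃ A : ℕ, A = ⌈X / s⌉₊ := ⟨_, rfl⟩
  have hA1 : 1 ≤ A := by rw [hA]; exact Nat.one_le_ceil_iff.2 (by positivity)
  have hA2 : X ≤ A * s := by
    have := Nat.le_ceil (X / s)
    rw [← hA, div_le_iff₀ (by linarith)] at this
    exact this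
  have hA3 : (A : ℝ) * s < X + s := by
    have := Nat.ceil_lt_add_one (show 0 ≤ X / s by positivity)
    rw [← hA] at this
    have h2 : (A : ℝ) * s < (X / s + 1) * s := by
      apply mul_lt_mul_of_pos_right this (by linarith)
    have h3 : (X / s + 1) * s = X + s := by field_simp
    linarith
  refine ⟨A, j + 1 + L, hA1, by omega, by omega, ?_⟩
  intro y hy0 hy1
  -- the new point
  have hu0 : 0 < 1 / ((A : ℝ) + y) := by positivity
  have hgz : ε * (kap * (mob (step σ A) y + 1) - zo) = kap / (s * (s * (A + y) + s')) := by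
    have h1 := mob_step hσ A hy0.le (by positivity)
    have h2 := mob_sub hσ hu0.le (le_refl (0 : ℝ))
    have h3 : kap * (mob (step σ A) y + 1) - zo = kap * (mob σ (1 / (A + y)) - mob σ 0) := by
      rw [hzo, h1]; ring
    rw [h3, h2, ← hs, ← hs']
    have h4 : ((s : ℝ) + s' * (1 / (A + y))) ≠ 0 := by positivity
    have h5 : (A : ℝ) + y ≠ 0 := by positivity
    have h6 : (s * (A + y) + s' : ℝ) ≠ 0 := by positivity
    have h7 : (s : ℝ) ≠ 0 := by positivity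
    rw [sub_zero, mul_zero, add_zero]
    have h8 : ε * (kap * (ε * (1 / (A + y)) / ((s + s' * (1 / (A + y))) * s))) =
        (ε * ε) * (kap * ((1 / (A + y)) / ((s + s' * (1 / (A + y))) * s))) := by ring
    rw [h8, hεsq, one_mul]
    field_simp
  obtain ⟨Tv, hTv⟩ : ∃ Tv, Tv = kap / (s * (s * (A + y) + s')) := ⟨_, rfl⟩
  rw [← hTv] at hgz
  have hT1 : Tv < hi := by
    rw [hTv, div_lt_iff₀ (by positivity)]
    have h1 : kap = X * (s * hi) := by rw [hX]; field_simp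
    rw [h1]
    have h2 : X < s * (A + y) + s' := by nlinarith
    calc X * (s * hi) < (s * (A + y) + s') * (s * hi) := by
          apply mul_lt_mul_of_pos_right h2 (by positivity)
      _ = _ := by ring
  have hT2 : lo < Tv := by
    rw [hTv, lt_div_iff₀ (by positivity)]
    have h1 : kap = kap / (s * lo) * (s * lo) := by field_simp
    rw [h1]
    have h2 : s * (A + y) + s' < kap / (s * lo) := by nlinarith
    calc lo * (s * (s * (A + y) + s')) = (s * (A + y) + s') * (s * lo) := by ring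
      _ < kap / (s * lo) * (s * lo) := by
          apply mul_lt_mul_of_pos_right h2 (by positivity)
  have hcont : ContinuousOn δ (Icc 0 1) := by
    have h1 : ContinuousOn V (Icc 0 1) := by
      have : V = fun y => 1 / ((a + 1) + ps^[L] y) := funext hV
      rw [this]
      apply ContinuousOn.div continuousOn_const (continuousOn_const.add (Phi_cont L))
      intro x hx
      have h3 := (Phi_mem L hx.1 hx.2).1
      have h4 : (0 : ℝ) < (a + 1) + ps^[L] x := by linarith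
      exact h4.ne'
    have h2 : δ = fun y => ε * (mob (st e j) (V y) - zo) := funext hδ
    rw [h2]
    apply ContinuousOn.mul continuousOn_const
    apply ContinuousOn.sub _ continuousOn_const
    unfold mob
    apply ContinuousOn.div (continuousOn_const.add (continuousOn_const.mul h1))
      (continuousOn_const.add (continuousOn_const.mul h1))
    intro x hx
    exact (den_pos hgj (hVb x hx.1 hx.2).2.2.1.le).ne'
  obtain ⟨y', hy'm, hy'⟩ : ∃ y' ∈ uIcc (0 : ℝ) 1, δ y' = Tv := by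
    have h1 := intermediate_value_uIcc (a := (0 : ℝ)) (b := 1) (f := δ) (by rw [uIcc_of_le zero_le_one]; exact hcont)
    apply h1
    rw [uIcc, mem_Icc]
    constructor
    · have : δ 0 ⊓ δ 1 = lo := hlo.symm
      rw [this]; exact hT2.le
    · have : δ 0 ⊔ δ 1 = hi := hhi.symm
      rw [this]; exact hT1.le
  rw [uIcc_of_le zero_le_one] at hy'm
  have hy'0 : 0 < y' := by
    rcases eq_or_lt_of_le hy'm.1 with h | h
    · exfalso
      rw [← h] at hy'
      rcases le_total (δ 0) (δ 1) with h1 | h1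
      · rw [min_eq_left h1] at hlo; linarith
      · rw [max_eq_left h1] at hhi; linarith
    · exact h
  have hy'1 : y' < 1 := by
    rcases eq_or_lt_of_le hy'm.2 with h | h
    · exfalso
      rw [h] at hy'
      rcases le_total (δ 0) (δ 1) with h1 | h1
      · rw [max_eq_right h1] at hhi; linarith
      · rw [min_eq_right h1] at hlo; linarith
    · exact h
  have hzeq : kap * (mob (step σ A) y + 1) = mob (st e j) (V y') := by
    have h1 : ε * (kap * (mob (step σ A) y + 1) - zo) = ε * (mob (st e j) (V y') - zo) := by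
      rw [hgz, ← hδ, hy']
    have h2 := mul_left_cancel₀ hε0 h1
    linarith
  rw [hzeq]
  -- the orbit
  obtain ⟨hv1, hv2, hv3, hv4⟩ := hVb y' hy'0.le hy'1.le
  have ho1 : G^[j] (mob (st e j) (V y')) = V y' := orbit e j (fun i _ => (hw1 i).1) _ hv3 hv4
  have ho2 : G (V y') = ps^[L] y' := by
    obtain ⟨h1, h2⟩ := Phi_mem' L hy'0 hy'1
    unfold G
    rw [hV, one_div_one_div, ha]
    have : ((e j : ℝ) + 1) + ps^[L] y' = ((e j + 1 : ℕ) : ℝ) + ps^[L] y' := by push_cast; ring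
    rw [this, Int.fract_natCast_add, Int.fract_eq_self.2 ⟨h1.le, h2⟩]
  have ho3 : ∀ i, i ≤ L → G^[j + 1 + i] (mob (st e j) (V y')) = ps^[L - i] y' := by
    intro i hi
    have h1 : j + 1 + i = i + (1 + j) := by ring
    rw [h1, Function.iterate_add_apply, Function.iterate_add_apply, ho1, Function.iterate_one, ho2]
    exact Phi_orbit L hy'0 hy'1 i hi
  have hsub : (Finset.range (L - 3)).image (fun i => j + 1 + i) ⊆
      (Finset.range (j + 1 + L)).filter (fun n => 3 / 5 ≤ G^[n] (mob (st e j) (V y')) ∧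
        G^[n] (mob (st e j) (V y')) ≤ 5 / 8) := by
    intro n hn
    rw [Finset.mem_image] at hn
    obtain ⟨i, hi, rfl⟩ := hn
    rw [Finset.mem_range] at hi
    rw [Finset.mem_filter, Finset.mem_range, ho3 i (by omega)]
    refine ⟨by omega, ?_⟩
    obtain ⟨r, hr⟩ : ∃ r, L - i = r + 4 := ⟨L - i - 4, by omega⟩
    rw [hr]
    exact Phi_near r hy'0.le hy'1.le
  have hcard := Finset.card_le_card hsub
  rw [Finset.card_image_of_injective _ (fun a b h => by simpa using h), Finset.card_range] at hcard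
  have h8 : j + 1 + L ≤ 8 * (L - 3) := by omega
  have h9 : ((j + 1 + L : ℕ) : ℝ) ≤ 8 * ((L - 3 : ℕ) : ℝ) := by exact_mod_cast h8
  have h10 : ((L - 3 : ℕ) : ℝ) ≤ ((((Finset.range (j + 1 + L)).filter (fun n => 3 / 5 ≤ G^[n] (mob (st e j) (V y')) ∧
        G^[n] (mob (st e j) (V y')) ≤ 5 / 8)).card : ℕ) : ℝ) := by exact_mod_cast hcard
  linarith

end Pool.Agent.H428R3.CF
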