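import Mathlib
import Pool.Agent.H428R3.CF.Basic
import Pool.Agent.H428R3.CF.Select
import Pool.Agent.H428R3.CF.Gauss

/-!
A continued fraction normal `x` such that `kap * x + kap` is not continued fraction normal.
-/

open Set Filter Topology

namespace Pool.Agent.H428R3.CF

/-- finite continued fractions -/
noncomputable def cf (b : ℕ → ℕ) : ℕ → ℕ → ℝ
  | 0, _ => 0
  | k + 1, n => 1 / (b n + cf b k (n + 1))

lemma cf_nonneg (b : ℕ → ℕ) (k n : ℕ) : 0 ≤ cf b k n := by
  induction k generalizing n with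
  | zero => exact le_rfl
  | succ k ih =>
    have := ih (n + 1)
    simp only [cf]
    positivity

lemma cf_le_one (b : ℕ → ℕ) (hb : ∀ n, 1 ≤ b n) (k n : ℕ) : cf b k n ≤ 1 := by
  cases k with
  | zero => exact zero_le_one
  | succ k =>
    have := cf_nonneg b k (n + 1)
    have h1 : (1 : ℝ) ≤ b n := by exact_mod_cast hb n
    simp only [cf]
    rw [div_le_one (by linarith)]
    linarith

lemma cf_mob (b : ℕ → ℕ) (hb : ∀ n, 1 ≤ b n) (k m n : ℕ) :
    cf b (k + m) n = mob (st (fun i => b (n + i)) k) (cf b m (n + k)) := by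
  have h := tail_mob (fun i => b (n + i)) (fun i => cf b (k + m - i) (n + i)) k (fun i _ => hb _)
    (fun i => cf_nonneg _ _ _) (fun i hi => by
      have h1 : k + m - i = (k + m - (i + 1)) + 1 := by omega
      rw [h1]
      rfl)
  simp only [Nat.sub_zero, add_zero] at h
  rw [h]
  congr 2
  omega

lemma cf_cauchy (b : ℕ → ℕ) (hb : ∀ n, 1 ≤ b n) (n : ℕ) : ∃ w, Tendsto (fun k => cf b k n) atTop (𝓝 w) := by
  apply cauchySeq_tendsto_of_complete
  apply cauchySeq_of_le_geometric (1 / 2) 2 (by norm_num)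
  intro k
  rw [Real.dist_eq]
  have h0 : cf b k n = mob (st (fun i => b (n + i)) k) (cf b 0 (n + k)) := cf_mob b hb k 0 n
  have h1 := cf_mob b hb k 1 n
  rw [h0, h1]
  have h2 := mob_contr (fun i => b (n + i)) k (fun i _ => hb _) (cf_nonneg b 0 (n + k)) (cf_nonneg b 1 (n + k))
    (cf_le_one b hb 0 (n + k)) (cf_le_one b hb 1 (n + k))
  refine h2.trans (le_of_eq ?_)
  rw [one_div, inv_pow, div_eq_mul_inv]

lemma tails (b : ℕ → ℕ) (hb : ∀ n, 1 ≤ b n) : ∃ W : ℕ → ℝ, (∀ n, 0 < W n) ∧ (∀ n, W n < 1) ∧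
    (∀ n, W n = 1 / (b n + W (n + 1))) := by
  choose W hW using cf_cauchy b hb
  have hb1 : ∀ n, (1 : ℝ) ≤ b n := fun n => by exact_mod_cast hb n
  have h0 : ∀ n, 0 ≤ W n := fun n => ge_of_tendsto' (hW n) (fun k => cf_nonneg b k n)
  have hrec : ∀ n, W n = 1 / (b n + W (n + 1)) := by
    intro n
    have h1 : Tendsto (fun k => cf b (k + 1) n) atTop (𝓝 (W n)) := (hW n).comp (tendsto_add_atTop_nat 1)
    have h2 : Tendsto (fun k => 1 / ((b n : ℝ) + cf b k (n + 1))) atTop (𝓝 (1 / (b n + W (n + 1)))) := by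
      apply Tendsto.div tendsto_const_nhds (tendsto_const_nhds.add (hW (n + 1)))
      have := h0 (n + 1)
      have := hb1 n
      linarith
    exact tendsto_nhds_unique h1 h2
  have hpos : ∀ n, 0 < W n := by
    intro n
    have := h0 (n + 1)
    have := hb1 n
    rw [hrec n]
    positivity
  refine ⟨W, hpos, ?_, hrec⟩
  intro n
  have := hpos (n + 1)
  have := hb1 n
  rw [hrec n, div_lt_one (by linarith)]
  linarith

lemma tails_irr (b : ℕ → ℕ) (W : ℕ → ℝ) (h0 : ∀ n, 0 < W n) (h1 : ∀ n, W n < 1)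
    (hrec : ∀ n, W n = 1 / (b n + W (n + 1))) : Irrational (W 0) := by
  have key : ∀ q : ℕ, 0 < q → ∀ n, ∀ p : ℤ, W n ≠ p / q := by
    intro q
    induction q using Nat.strong_induction_on with
    | _ q ih =>
      intro hq n p hp
      have hqr : (0 : ℝ) < q := by exact_mod_cast hq
      have hp0 : (0 : ℝ) < p := by
        have := h0 n
        rw [hp] at this
        by_contra hcon
        have h2 : (p : ℝ) / q ≤ 0 := div_nonpos_of_nonpos_of_nonneg (not_lt.1 hcon) hqr.le
        linarith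
      have hp1 : (p : ℝ) < q := by
        have := h1 n
        rw [hp, div_lt_one hqr] at this
        exact this
      have hp0' : 0 < p := by exact_mod_cast hp0
      have hp1' : p < q := by exact_mod_cast hp1
      obtain ⟨p', rfl⟩ : ∃ p' : ℕ, p = p' := ⟨p.toNat, by omega⟩
      have hp2 : 0 < p' := by omega
      have hp3 : p' < q := by omega
      refine ih p' hp3 hp2 (n + 1) ((q : ℤ) - b n * p') ?_
      have h3 := hrec n
      have hb0 : (0 : ℝ) ≤ b n := Nat.cast_nonneg _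
      have h4 : 0 < (b n : ℝ) + W (n + 1) := by linarith [h0 (n + 1)]
      rw [hp] at h3
      push_cast at h3 ⊢
      push_cast at hp0
      rw [div_eq_div_iff hqr.ne' h4.ne'] at h3
      rw [eq_div_iff hp0.ne']
      linarith
  intro ⟨r, hr⟩
  apply key r.den r.den_pos 0 r.num
  rw [← hr]
  exact_mod_cast (Rat.num_div_den r).symm

lemma tails_orbit (b : ℕ → ℕ) (hb : ∀ n, 1 ≤ b n) (W : ℕ → ℝ) (h0 : ∀ n, 0 < W n) (h1 : ∀ n, W n < 1)
    (hrec : ∀ n, W n = 1 / (b n + W (n + 1))) (n : ℕ) : W 0 = mob (st b n) (W n) ∧ G^[n] (W 0) = W n := by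
  have h2 := tail_mob b W n (fun i _ => hb i) (fun i => (h0 i).le) (fun i _ => hrec i)
  refine ⟨h2, ?_⟩
  rw [h2]
  exact orbit b n (fun i _ => hb i) (W n) (h0 n) (h1 n)

/-- agreement of tails -/
lemma tails_near (a b : ℕ → ℕ) (ha : ∀ n, 1 ≤ a n) (V W : ℕ → ℝ)
    (hV0 : ∀ n, 0 < V n) (hV1 : ∀ n, V n < 1) (hV : ∀ n, V n = 1 / (a n + V (n + 1)))
    (hW0 : ∀ n, 0 < W n) (hW1 : ∀ n, W n < 1) (hW : ∀ n, W n = 1 / (b n + W (n + 1)))
    (n M : ℕ) (hab : ∀ i < M, b (n + i) = a (n + i)) : |W n - V n| ≤ 2 / 2 ^ M := by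
  have h1 := tail_mob (fun i => a (n + i)) (fun i => V (n + i)) M (fun i _ => ha _) (fun i => (hV0 _).le)
    (fun i _ => hV _)
  have h2 := tail_mob (fun i => b (n + i)) (fun i => W (n + i)) M (fun i hi => by rw [hab i hi]; exact ha _)
    (fun i => (hW0 _).le) (fun i _ => hW _)
  have h3 : st (fun i => b (n + i)) M = st (fun i => a (n + i)) M := st_congr M hab
  simp only [add_zero] at h1 h2
  rw [h3] at h2
  rw [h1, h2]
  exact mob_contr _ M (fun i _ => ha _) (hW0 _).le (hV0 _).le (hW1 _).le (hV1 _).le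

/-- few exceptional positions -/
lemma bad_card (M N : ℕ) : ((Finset.range N).filter (fun n => ∃ i < M, IsSquare (n + i))).card ≤
    M * (Nat.sqrt (N + M) + 1) := by
  classical
  have h1 : (Finset.range N).filter (fun n => ∃ i < M, IsSquare (n + i)) ⊆
      (Finset.range M).biUnion (fun i => (Finset.range N).filter (fun n => IsSquare (n + i))) := by
    intro n hn
    rw [Finset.mem_filter] at hn
    obtain ⟨hn1, i, hi, hsq⟩ := hn
    rw [Finset.mem_biUnion]
    exact ⟨i, Finset.mem_range.2 hi, Finset.mem_filter.2 ⟨hn1, hsq⟩⟩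
  refine (Finset.card_le_card h1).trans ?_
  refine Finset.card_biUnion_le.trans ?_
  have h2 : ∀ i ∈ Finset.range M, ((Finset.range N).filter (fun n => IsSquare (n + i))).card ≤ Nat.sqrt (N + M) + 1 := by
    intro i hi
    rw [Finset.mem_range] at hi
    rw [← Finset.card_range (Nat.sqrt (N + M) + 1)]
    apply Finset.card_le_card_of_injOn (fun n => Nat.sqrt (n + i))
    · intro n hn
      simp only [Finset.coe_filter, Finset.mem_range, mem_setOf_eq] at hn
      simp only [Finset.coe_range, mem_Iio]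
      have : Nat.sqrt (n + i) ≤ Nat.sqrt (N + M) := Nat.sqrt_le_sqrt (by omega)
      omega
    · intro n hn m hm hnm
      simp only [Finset.coe_filter, Finset.mem_range, mem_setOf_eq] at hn hm
      obtain ⟨r, hr⟩ := hn.2
      obtain ⟨s, hs⟩ := hm.2
      simp only [hr, hs, Nat.sqrt_eq] at hnm
      subst hnm
      omega
  refine (Finset.sum_le_sum h2).trans ?_
  rw [Finset.sum_const, Finset.card_range, smul_eq_mul]

lemma bad_lim (M : ℕ) : Tendsto (fun N : ℕ =>
    (((Finset.range N).filter (fun n => ∃ i < M, IsSquare (n + i))).card : ℝ) / N) atTop (𝓝 0) := by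
  have h1 : Tendsto (fun N : ℕ => (M : ℝ) * (2 * (1 / Real.sqrt N) + 1 / N)) atTop (𝓝 0) := by
    have h2 : Tendsto (fun N : ℕ => 1 / Real.sqrt (N : ℝ)) atTop (𝓝 0) :=
      tendsto_const_nhds.div_atTop (Real.tendsto_sqrt_atTop.comp tendsto_natCast_atTop_atTop)
    have h3 : Tendsto (fun N : ℕ => 1 / (N : ℝ)) atTop (𝓝 0) := tendsto_const_nhds.div_atTop tendsto_natCast_atTop_atTop
    have h4 := ((h2.const_mul 2).add h3).const_mul (M : ℝ)
    simpa using h4
  refine squeeze_zero' (Filter.Eventually.of_forall fun N => by positivity) ?_ h1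
  filter_upwards [eventually_ge_atTop (M + 1)] with N hN
  have hN0 : (0 : ℝ) < N := by exact_mod_cast (by omega : 0 < N)
  have h2 := bad_card M N
  have h3 : (Nat.sqrt (N + M) : ℝ) ≤ 2 * Real.sqrt N := by
    have h4 : (Nat.sqrt (N + M) : ℝ) ≤ Real.sqrt ((N + M : ℕ) : ℝ) := Real.nat_sqrt_le_real_sqrt
    have h5 : Real.sqrt ((N + M : ℕ) : ℝ) ≤ Real.sqrt (2 ^ 2 * N) := by
      apply Real.sqrt_le_sqrt
      have : (M : ℝ) + 1 ≤ N := by exact_mod_cast hN
      push_cast
      linarith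
    rw [Real.sqrt_mul (by norm_num), Real.sqrt_sq (by norm_num)] at h5
    exact h4.trans h5
  have h4 : ((((Finset.range N).filter (fun n => ∃ i < M, IsSquare (n + i))).card : ℕ) : ℝ) ≤
      M * (Nat.sqrt (N + M) + 1) := by exact_mod_cast h2
  have h5 : (M : ℝ) * (Nat.sqrt (N + M) + 1) ≤ M * (2 * Real.sqrt N + 1) := by gcongr
  rw [div_le_iff₀ hN0]
  refine h4.trans (h5.trans (le_of_eq ?_))
  have h6 : Real.sqrt N * Real.sqrt N = N := Real.mul_self_sqrt hN0.le
  have h7 : 0 < Real.sqrt (N : ℝ) := Real.sqrt_pos.2 hN0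
  have h8 : 1 / Real.sqrt (N : ℝ) * N = Real.sqrt N := by
    rw [one_div, inv_mul_eq_div, div_eq_iff h7.ne', h6]
  have h9 : 1 / (N : ℝ) * N = 1 := by field_simp
  calc (M : ℝ) * (2 * Real.sqrt N + 1) = M * (2 * (1 / Real.sqrt (N : ℝ) * N) + 1 / (N : ℝ) * N) := by rw [h8, h9]
    _ = _ := by ring

/-- transfer of equidistribution -/
lemma transfer (V W : ℕ → ℝ) (hW0 : ∀ n, 0 < W n) (hW1 : ∀ n, W n < 1)
    (hV : ∀ t : ℚ, (0 : ℝ) ≤ t → (t : ℝ) ≤ 1 →
      Tendsto (fun N : ℕ => (((Finset.range N).filter (fun n => V n < t)).card : ℝ) / N) atTop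
        (𝓝 (Real.log (1 + t) / Real.log 2)))
    (hnear : ∀ δ : ℝ, 0 < δ → ∃ B : ℕ → Prop, ∃ _ : DecidablePred B, (∀ n, ¬ B n → |W n - V n| < δ) ∧
      Tendsto (fun N : ℕ => (((Finset.range N).filter B).card : ℝ) / N) atTop (𝓝 0))
    (t : ℝ) (ht0 : 0 ≤ t) (ht1 : t ≤ 1) :
    Tendsto (fun N : ℕ => (((Finset.range N).filter (fun n => W n < t)).card : ℝ) / N) atTop
        (𝓝 (Real.log (1 + t) / Real.log 2)) := by
  classical
  have hl := log2_pos
  rcases eq_or_lt_of_le ht0 with rfl | ht0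
  · have h1 : ∀ N : ℕ, ((Finset.range N).filter (fun n => W n < 0)).card = 0 := by
      intro N
      rw [Finset.card_eq_zero, Finset.filter_eq_empty_iff]
      intro n _
      exact not_lt.2 (hW0 n).le
    simp [h1]
  rcases eq_or_lt_of_le ht1 with rfl | ht1
  · have h1 : ∀ N : ℕ, ((Finset.range N).filter (fun n => W n < 1)).card = N := by
      intro N
      rw [Finset.filter_true_of_mem (fun n _ => hW1 n), Finset.card_range]
    simp only [h1]
    have h2 : Real.log (1 + 1) / Real.log 2 = 1 := by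
      rw [one_add_one_eq_two, div_self hl.ne']
    rw [h2]
    apply tendsto_const_nhds.congr'
    filter_upwards [eventually_ge_atTop 1] with N hN
    have : (0 : ℝ) < N := by exact_mod_cast hN
    rw [div_self this.ne']
  have hcont : ContinuousAt (fun u : ℝ => Real.log (1 + u) / Real.log 2) t := by
    apply ContinuousAt.div_const
    apply ContinuousAt.log (continuousAt_const.add continuousAt_id)
    have : (0 : ℝ) < 1 + t := by linarith
    exact this.ne'
  rw [tendsto_order]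
  constructor
  · intro c hc
    have h1 : ∀ᶠ u in 𝓝 t, c < Real.log (1 + u) / Real.log 2 := hcont.eventually (lt_mem_nhds hc)
    obtain ⟨l, u2, ⟨hu1, hu2⟩, hu3⟩ := (mem_nhds_iff_exists_Ioo_subset.1 h1)
    obtain ⟨s, hs1, hs2⟩ := exists_rat_btwn (max_lt hu1 ht0)
    have hsl : l < s := (le_max_left _ _).trans_lt hs1
    have hs0 : (0 : ℝ) < s := (le_max_right _ _).trans_lt hs1
    have hsc : c < Real.log (1 + s) / Real.log 2 := hu3 ⟨hsl, hs2.trans hu2⟩
    obtain ⟨B, hBd, hB1, hB2⟩ := hnear (t - s) (by linarith)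
    have h3 := (hV s hs0.le (by linarith)).sub hB2
    rw [sub_zero] at h3
    filter_upwards [h3.eventually (lt_mem_nhds hsc)] with N hN
    refine lt_of_lt_of_le hN ?_
    rw [← sub_div]
    apply div_le_div_of_nonneg_right _ (Nat.cast_nonneg _)
    rw [sub_le_iff_le_add]
    have h4 : (Finset.range N).filter (fun n => V n < s) ⊆
        (Finset.range N).filter (fun n => W n < t) ∪ (Finset.range N).filter B := by
      intro n hn
      rw [Finset.mem_filter] at hn
      rw [Finset.mem_union, Finset.mem_filter, Finset.mem_filter]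
      by_cases hBn : B n
      · exact Or.inr ⟨hn.1, hBn⟩
      · left
        refine ⟨hn.1, ?_⟩
        have h5 := (abs_lt.1 (hB1 n hBn)).2
        linarith [hn.2]
    have h5 := (Finset.card_le_card h4).trans (Finset.card_union_le _ _)
    have h6 : (((Finset.range N).filter (fun n => V n < s)).card : ℝ) ≤
        ((Finset.range N).filter (fun n => W n < t)).card + ((Finset.range N).filter B).card := by exact_mod_cast h5
    exact h6
  · intro c hc
    have h1 : ∀ᶠ u in 𝓝 t, Real.log (1 + u) / Real.log 2 < c := hcont.eventually (gt_mem_nhds hc)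
    obtain ⟨l, hl1, ⟨hu1, hu2⟩, hu3⟩ := (mem_nhds_iff_exists_Ioo_subset.1 h1)
    obtain ⟨s, hs1, hs2⟩ := exists_rat_btwn (lt_min hu2 ht1)
    have hsl : (s : ℝ) < hl1 := hs2.trans_le (min_le_left _ _)
    have hs1' : (s : ℝ) < 1 := hs2.trans_le (min_le_right _ _)
    have hsc : Real.log (1 + s) / Real.log 2 < c := hu3 ⟨hu1.trans hs1, hsl⟩
    obtain ⟨B, hBd, hB1, hB2⟩ := hnear (s - t) (by linarith)
    have h3 := (hV s (by linarith) hs1'.le).add hB2
    rw [add_zero] at h3
    filter_upwards [h3.eventually (gt_mem_nhds hsc)] with N hN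
    refine lt_of_le_of_lt ?_ hN
    rw [← add_div]
    apply div_le_div_of_nonneg_right _ (Nat.cast_nonneg _)
    have h4 : (Finset.range N).filter (fun n => W n < t) ⊆
        (Finset.range N).filter (fun n => V n < s) ∪ (Finset.range N).filter B := by
      intro n hn
      rw [Finset.mem_filter] at hn
      rw [Finset.mem_union, Finset.mem_filter, Finset.mem_filter]
      by_cases hBn : B n
      · exact Or.inr ⟨hn.1, hBn⟩
      · left
        refine ⟨hn.1, ?_⟩
        have h5 := (abs_lt.1 (hB1 n hBn)).1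
        linarith [hn.2]
    have h5 := (Finset.card_le_card h4).trans (Finset.card_union_le _ _)
    exact_mod_cast h5

/-- the counterexample -/
theorem main : ∃ x : ℝ, Irrational x ∧ 0 < x ∧ x < 1 ∧
    (∀ t : ℝ, 0 ≤ t → t ≤ 1 →
      Tendsto (fun N : ℕ => (((Finset.range N).filter (fun n => G^[n] x < t)).card : ℝ) / N) atTop
        (𝓝 (Real.log (1 + t) / Real.log 2))) ∧
    (∀ K : ℕ, ∃ N : ℕ, K ≤ N ∧ 1 ≤ N ∧ (N : ℝ) / 8 ≤
      (((Finset.range N).filter (fun n => 3 / 5 ≤ G^[n] (kap * (x + 1)) ∧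
        G^[n] (kap * (x + 1)) ≤ 5 / 8)).card : ℝ)) := by
  classical
  obtain ⟨x0, hx0, hx0p, hx0l, hnorm⟩ := exists_normal
  obtain ⟨V, hV⟩ : ∃ V : ℕ → ℝ, ∀ n, V n = G^[n] x0 := ⟨_, fun n => rfl⟩
  have hdig := digits x0 hx0 hx0p hx0l
  have hV0 : ∀ n, 0 < V n := fun n => by rw [hV]; exact (hdig n).2.1
  have hV1 : ∀ n, V n < 1 := fun n => by rw [hV]; exact (hdig n).2.2
  obtain ⟨a, ha⟩ : ∃ a : ℕ → ℕ, ∀ n, a n = ⌊1 / V n⌋₊ := ⟨_, fun n => rfl⟩
  have hV2 : ∀ n, 1 ≤ a n ∧ V n = 1 / (a n + V (n + 1)) := by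
    intro n
    have h1 := digit_rec (V n) (hV0 n) (hV1 n)
    have h2 : V (n + 1) = G (V n) := by rw [hV, hV, Function.iterate_succ_apply']
    rw [ha, h2]
    exact h1
  -- choice of the huge digits
  have hsel : ∀ (n : ℕ) (σ : ℕ × ℕ × ℕ × ℕ), ∃ A : ℕ, 1 ≤ A ∧ (Good σ ((-1) ^ n) →
      ∃ N : ℕ, n ≤ N ∧ 1 ≤ N ∧ ∀ y : ℝ, 0 < y → y < 1 →
      (N : ℝ) / 8 ≤ (((Finset.range N).filter (fun n => 3 / 5 ≤ G^[n] (kap * (mob (step σ A) y + 1)) ∧
        G^[n] (kap * (mob (step σ A) y + 1)) ≤ 5 / 8)).card : ℝ)) := by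
    intro n σ
    by_cases hg : Good σ ((-1) ^ n)
    · obtain ⟨A, N, hA, h1, h2, h3⟩ := select σ ((-1) ^ n) hg (neg_one_pow_eq_or ℝ n) n
      exact ⟨A, hA, fun _ => ⟨N, h1, h2, h3⟩⟩
    · exact ⟨1, le_rfl, fun h => absurd h hg⟩
  choose A hA1 hA2 using hsel
  -- the new digits
  let S : ℕ → ℕ × ℕ × ℕ × ℕ := fun n => Nat.rec (0, 1, 1, 0)
    (fun n σ => step σ (if IsSquare n then A n σ else a n)) n
  have hS0 : S 0 = (0, 1, 1, 0) := rfl
  have hS1 : ∀ n, S (n + 1) = step (S n) (if IsSquare n then A n (S n) else a n) := fun n => rfl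
  obtain ⟨b, hb⟩ : ∃ b : ℕ → ℕ, ∀ n, b n = if IsSquare n then A n (S n) else a n := ⟨_, fun n => rfl⟩
  have hb1 : ∀ n, 1 ≤ b n := by
    intro n
    rw [hb]
    split_ifs
    · exact hA1 _ _
    · exact (hV2 n).1
  have hSst : ∀ n, st b n = S n := by
    intro n
    induction n with
    | zero => rfl
    | succ n ih => rw [hS1, ← hb, ← ih]; rfl
  obtain ⟨W, hW0, hW1, hW⟩ := tails b hb1
  have horb := tails_orbit b hb1 W hW0 hW1 hW
  refine ⟨W 0, tails_irr b W hW0 hW1 hW, hW0 0, hW1 0, ?_, ?_⟩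
  · intro t ht0 ht1
    have h1 := transfer V W hW0 hW1 (fun t h0 h1 => by
      have := hnorm t h0 h1
      simp_rw [hV]
      exact this) (fun δ hδ => by
      obtain ⟨M, hM⟩ := exists_pow_lt_of_lt_one (show 0 < δ / 2 by linarith) (show (1 / 2 : ℝ) < 1 by norm_num)
      refine ⟨fun n => ∃ i < M, IsSquare (n + i), inferInstance, ?_, bad_lim M⟩
      intro n hn
      push Not at hn
      have h2 := tails_near a b (fun n => (hV2 n).1) V W hV0 hV1 (fun n => (hV2 n).2) hW0 hW1 hW n M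
        (fun i hi => by rw [hb, if_neg (hn i hi)])
      refine lt_of_le_of_lt h2 ?_
      rw [one_div, inv_pow] at hM
      rw [div_eq_mul_inv]
      linarith) t ht0 ht1
    refine h1.congr (fun N => ?_)
    congr 3
    ext n
    rw [Finset.mem_filter, Finset.mem_filter, (horb n).2]
  · intro K
    have hg := good_st b hb1 (K * K)
    obtain ⟨N, h1, h2, h3⟩ := hA2 (K * K) (st b (K * K)) hg
    refine ⟨N, le_trans (Nat.le_mul_self K) h1, h2, ?_⟩
    have h4 : W 0 = mob (step (st b (K * K)) (A (K * K) (st b (K * K)))) (W (K * K + 1)) := by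
      have h5 := (horb (K * K + 1)).1
      have h6 : b (K * K) = A (K * K) (st b (K * K)) := by
        rw [hb, if_pos ⟨K, rfl⟩, hSst]
      rw [h5]
      simp only [st]
      rw [h6]
    rw [h4]
    exact h3 _ (hW0 _) (hW1 _)

end Pool.Agent.H428R3.CF
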